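import Pool.Agent.K1H27.PL.Core

/-!
# Project PL: abstract part, vectors with small local spectra
-/

set_option autoImplicit false

namespace Pool.Agent.K1H27.PL

open MeasureTheory Set Metric Filter Topology
open scoped ENNReal NNReal

variable {E : Type} [NormedAddCommGroup E] [NormedSpace ℂ E] [CompleteSpace E]
variable {P R : ℝ} {N K : E →L[ℂ] E} {H Mn : ℂ → (E →L[ℂ] E)}
  {Ma Mb Mc : ℕ → ℂ → (E →L[ℂ] E)} {U : Set ℂ} {r : ℕ → ℝ≥0} {C : ℝ≥0}

theorem Fam.TX (F : Fam P R N K H Mn Ma Mb Mc U r C) {A : Set ℂ} (hA : MeasurableSet A)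
    (hAU : A ⊆ U) {D : ℝ} (hD : ∀ z ∈ A, ‖H z‖ ≤ D) {w : ℂ → E} (hw : Adm P A w) :
    (N + K) (XX Mb A w) = XX Mb A (fun z => z • w z) -
      ∫ z in A, Mn z (w z - H z (w z)) := by
  have hAR := hAU.trans F.UR
  obtain ⟨D', -, hD'⟩ := bdd_of_cont F.cn R
  have hHm : AEStronglyMeasurable H (volume.restrict A) :=
    (F.cH.mono hAU).aestronglyMeasurable hA
  have hHw : Adm P A (fun z => H z (w z)) := hw.app F.P1 hA hHm hD
  have hM1 : Adm P A (fun z => Mn z (w z)) :=
    hw.app F.P1 hA F.cn.aestronglyMeasurable fun z hz => hD' z (hAR hz)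
  have hM2 : Adm P A (fun z => Mn z (H z (w z))) :=
    hHw.app F.P1 hA F.cn.aestronglyMeasurable fun z hz => hD' z (hAR hz)
  rw [add_apply, F.NX hA hAR hw, F.KX hA hAU hD hw]
  have h1 : ∫ z in A, Mn z (w z - H z (w z)) =
      (∫ z in A, Mn z (w z)) - ∫ z in A, Mn z (H z (w z)) := by
    rw [← integral_sub (hM1.int F.P1 hAR) (hM2.int F.P1 hAR)]
    refine integral_congr_ae (Eventually.of_forall fun z => ?_)
    simp only [map_sub]
  rw [h1]
  abel

/-- sequences of vectors with small local spectrum -/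
def Seq (T : E →L[ℂ] E) (c : ℂ) (ρ : ℝ) : Prop :=
  ∃ (X : ℕ → E) (D : ℝ), (∀ n, T (X n) - c • X n = X (n + 1)) ∧ (∀ n, ‖X n‖ ≤ D * ρ ^ n) ∧
    X 0 ≠ 0

theorem real_of_enorm {x : E} {D : ℝ≥0} (h : ‖x‖ₑ ≤ D) : ‖x‖ ≤ D := by
  have := enorm_le_coe.1 h
  exact_mod_cast this

/-- formal eigenvectors -/
theorem Fam.caseB (F : Fam P R N K H Mn Ma Mb Mc U r C) {c : ℂ} {ρ : ℝ} (hρ : 0 < ρ)
    (hc : closedBall c ρ ⊆ U) {u : ℂ → E} (hu : StronglyMeasurable u) (hu1 : ∀ z, ‖u z‖ ≤ 1)
    (hHu : ∀ z, H z (u z) = u z) (hpos : 0 < volume (ball c ρ ∩ {z | u z ≠ 0})) :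
    Seq (N + K) c ρ := by
  set A : Set ℂ := ball c ρ with hAdef
  have hA : MeasurableSet A := measurableSet_ball
  have hAU : A ⊆ U := ball_subset_closedBall.trans hc
  have hAR := hAU.trans F.UR
  obtain ⟨D, hD⟩ := (isCompact_closedBall c ρ).exists_bound_of_continuousOn (F.cH.mono hc)
  have hD' : ∀ z ∈ A, ‖H z‖ ≤ D := fun z hz => hD z (ball_subset_closedBall hz)
  have hfin : IsFiniteMeasure (volume.restrict A) := by
    refine ⟨?_⟩
    rw [Measure.restrict_apply MeasurableSet.univ, univ_inter]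
    exact measure_ball_lt_top
  have hP : 1 ≤ P := F.P1
  have hadm : ∀ B : Set ℂ, MeasurableSet B → Adm P A (B.indicator u) := by
    intro B hB
    refine adm_of_memLp hP ?_
    refine MemLp.of_bound (hu.indicator hB).aestronglyMeasurable 1
      (Eventually.of_forall fun z => ?_)
    exact (norm_indicator_le_norm_self _ _).trans (hu1 z)
  have hHind : ∀ (B : Set ℂ) (z : ℂ), H z (B.indicator u z) = B.indicator u z := by
    intro B z
    by_cases hz : z ∈ B
    · rw [indicator_of_mem hz]; exact hHu z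
    · rw [indicator_of_notMem hz, map_zero]
  -- some indicator gives a nonzero vector
  obtain ⟨B, hB, hB0⟩ : ∃ B : Set ℂ, MeasurableSet B ∧ XX Mb A (B.indicator u) ≠ 0 := by
    by_contra hcon
    push Not at hcon
    obtain ⟨D1, -, hD1⟩ := bdd_of_cont F.cn R
    have hMu : Adm P A (fun z => Mn z (u z)) := by
      have h0 := hadm univ MeasurableSet.univ
      rw [indicator_univ] at h0
      exact h0.app hP hA F.cn.aestronglyMeasurable fun z hz => hD1 z (hAR hz)
    have h1 : (fun z => Mn z (u z)) =ᵐ[volume.restrict A] 0 := by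
      refine Integrable.ae_eq_zero_of_forall_setIntegral_eq_zero (hMu.int hP hAR)
        fun B hB _ => ?_
      have h2 := F.KX hA hAU hD' (hadm B hB)
      rw [hcon B hB, map_zero] at h2
      rw [← integral_indicator hB, h2]
      refine integral_congr_ae (Eventually.of_forall fun z => ?_)
      show B.indicator (fun z => Mn z (u z)) z = Mn z (H z (B.indicator u z))
      rw [hHind]
      by_cases hz : z ∈ B
      · rw [indicator_of_mem hz, indicator_of_mem hz]
      · rw [indicator_of_notMem hz, indicator_of_notMem hz, map_zero]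
    have h3 : ∀ᵐ z ∂(volume.restrict A), u z = 0 := by
      filter_upwards [h1, ae_restrict_of_ae F.n7] with z h4 h5
      exact h5 _ h4
    have h6 : volume (A ∩ {z | u z ≠ 0}) = 0 := by
      rw [ae_restrict_iff' hA, ae_iff] at h3
      refine measure_mono_null (fun z hz => ?_) h3
      simp only [mem_setOf_eq, Classical.not_imp]
      exact ⟨hz.1, hz.2⟩
    exact hpos.ne' h6
  have hw : ∀ n : ℕ, Adm P A (fun z => (z - c) ^ n • B.indicator u z) := by
    intro n
    refine (hadm B hB).mul hP hA (D := ρ ^ n) ?_ fun z hz => ?_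
    · exact (((measurable_id.sub measurable_const).pow_const n)).aestronglyMeasurable
    · rw [norm_pow]
      exact pow_le_pow_left₀ (norm_nonneg _) (mem_ball_iff_norm.1 hz).le n
  have hX := F.normX hA hAR (hadm B hB)
  have hLfin : Lw P A (B.indicator u) ≠ ⊤ :=
    ENNReal.rpow_ne_top_of_nonneg (by positivity) (hadm B hB).f
  refine ⟨fun n => XX Mb A (fun z => (z - c) ^ n • B.indicator u z),
    C * (Lw P A (B.indicator u)).toNNReal, fun n => ?_, fun n => ?_, ?_⟩
  · rw [F.TX hA hAU hD' (hw n)]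
    have h1 : ∫ z in A, Mn z ((z - c) ^ n • B.indicator u z -
        H z ((z - c) ^ n • B.indicator u z)) = 0 := by
      have h2 : (fun z => Mn z ((z - c) ^ n • B.indicator u z -
          H z ((z - c) ^ n • B.indicator u z))) = fun _ => 0 := by
        funext z
        rw [map_smul, hHind, sub_self, map_zero]
      rw [h2, integral_zero]
    rw [h1, sub_zero, F.smulX hA hAR (hw n)]
    have hzw : Adm P A (fun z => z • ((z - c) ^ n • B.indicator u z)) :=
      (hw n).mul hP hA measurable_id.aestronglyMeasurable (D := R) fun z hz =>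
        (mem_ball_zero_iff.1 (hAR hz)).le
    have hcw : Adm P A (fun z => c • ((z - c) ^ n • B.indicator u z)) :=
      (hw n).mul hP hA (aestronglyMeasurable_const (b := c)) (D := ‖c‖) fun z _ => le_rfl
    rw [F.subX hA hAR hzw hcw]
    congr 1
    funext z
    rw [← sub_smul, smul_smul, pow_succ']
  · refine (real_of_enorm (D := C * (Lw P A (B.indicator u)).toNNReal * (ρ ^ n).toNNReal)
      ?_).trans (le_of_eq ?_)
    · refine (F.normX hA hAR (hw n)).trans ?_
      have h1 : Lw P A (fun z => (z - c) ^ n • B.indicator u z) ≤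
          ((ρ ^ n).toNNReal : ℝ≥0) * Lw P A (B.indicator u) := by
        refine lw_mono hP hA fun z hz => ?_
        rw [enorm_smul]
        refine mul_le_mul_left ?_ _
        rw [enorm_le_coe, ← NNReal.coe_le_coe, coe_nnnorm, norm_pow,
          Real.coe_toNNReal _ (by positivity)]
        exact pow_le_pow_left₀ (norm_nonneg _) (mem_ball_iff_norm.1 hz).le n
      calc (C : ℝ≥0∞) * Lw P A (fun z => (z - c) ^ n • B.indicator u z)
          ≤ C * (((ρ ^ n).toNNReal : ℝ≥0) * Lw P A (B.indicator u)) := by gcongr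
        _ = _ := by
            rw [ENNReal.coe_mul, ENNReal.coe_mul, ENNReal.coe_toNNReal hLfin]
            ring
    · rw [NNReal.coe_mul, NNReal.coe_mul, Real.coe_toNNReal _ (by positivity)]
  · simpa using hB0

/-- the annulus -/
def Ann (c : ℂ) (ρ : ℝ) : Set ℂ := {z : ℂ | ρ / 2 < ‖z - c‖ ∧ ‖z - c‖ < ρ}

theorem ann_meas (c : ℂ) (ρ : ℝ) : MeasurableSet (Ann c ρ) := by
  have h : Measurable fun z : ℂ => ‖z - c‖ := (measurable_id.sub measurable_const).norm
  exact (measurableSet_lt measurable_const h).inter (measurableSet_lt h measurable_const)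

/-- the weights -/
noncomputable def wg (c : ℂ) (n : ℕ) (z : ℂ) : ℂ := (z - c) ^ n * ((‖z - c‖⁻¹ : ℝ) : ℂ)

theorem wg_meas (c : ℂ) (n : ℕ) : Measurable (wg c n) := by
  have h : Measurable fun z : ℂ => z - c := measurable_id.sub measurable_const
  exact (h.pow_const n).mul (Complex.measurable_ofReal.comp h.norm.inv)

theorem wg_le {c : ℂ} {ρ : ℝ} (hρ : 0 < ρ) (n : ℕ) {z : ℂ} (hz : z ∈ Ann c ρ) :
    ‖wg c n z‖ ≤ 2 / ρ * ρ ^ n := by
  unfold wg
  have h0 : 0 < ‖z - c‖ := by have := hz.1; linarith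
  rw [norm_mul, norm_pow, Complex.norm_real, norm_inv, norm_norm]
  have h1 : ‖z - c‖⁻¹ ≤ 2 / ρ := by
    rw [inv_le_comm₀ h0 (by positivity), inv_div]
    exact hz.1.le
  calc ‖z - c‖ ^ n * ‖z - c‖⁻¹ ≤ ρ ^ n * (2 / ρ) := by
        gcongr
        exact hz.2.le
    _ = _ := mul_comm _ _

theorem wg_mul (c : ℂ) (n : ℕ) (z : ℂ) : (z - c) * wg c n z = wg c (n + 1) z := by
  unfold wg
  rw [pow_succ']
  ring

/-- local resolvents -/
theorem Fam.caseA (hROT : S_ROT) (F : Fam P R N K H Mn Ma Mb Mc U r C) {c : ℂ} {ρ : ℝ}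
    (hρ : 0 < ρ) (hc : closedBall c ρ ⊆ U) (hu : ∀ z ∈ closedBall c ρ, IsUnit (1 - H z))
    (x : E) : ∃ (X : ℕ → E) (W : E) (k : ℂ) (D : ℝ), (∀ n, (N + K) (X n) - c • X n = X (n + 1)) ∧
      (∀ n, ‖X n‖ ≤ D * ρ ^ n) ∧ c • W - (N + K) W = X 0 + k • x ∧ k ≠ 0 := by
  set A : Set ℂ := Ann c ρ with hAdef
  have hA : MeasurableSet A := ann_meas c ρ
  have hAc : A ⊆ closedBall c ρ := fun z hz => mem_closedBall_iff_norm.2 hz.2.le
  have hAU : A ⊆ U := hAc.trans hc
  have hAR := hAU.trans F.UR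
  have hP : 1 ≤ P := F.P1
  have hP0 : 0 < P := lt_of_lt_of_le one_pos hP
  obtain ⟨DH, hDH⟩ := (isCompact_closedBall c ρ).exists_bound_of_continuousOn (F.cH.mono hc)
  have hDH' : ∀ z ∈ A, ‖H z‖ ≤ DH := fun z hz => hDH z (hAc hz)
  have hfin : IsFiniteMeasure (volume.restrict A) := by
    refine ⟨?_⟩
    rw [Measure.restrict_apply MeasurableSet.univ, univ_inter]
    exact lt_of_le_of_lt (measure_mono hAc) measure_closedBall_lt_top
  -- the inverse
  set G : ℂ → (E →L[ℂ] E) := fun z => Ring.inverse (1 - H z) with hG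
  have hGc : ContinuousOn G (closedBall c ρ) := by
    intro z hz
    have h1 : ContinuousWithinAt (fun z => 1 - H z) (closedBall c ρ) z :=
      continuousWithinAt_const.sub ((F.cH.mono hc) z hz)
    obtain ⟨v, hv⟩ := hu z hz
    have h2 : ContinuousAt (Ring.inverse : (E →L[ℂ] E) → (E →L[ℂ] E)) (1 - H z) := by
      rw [← hv]
      exact NormedRing.inverse_continuousAt v
    exact ContinuousAt.comp_continuousWithinAt (g := Ring.inverse) (f := fun z => 1 - H z) h2 h1
  obtain ⟨DG, hDG⟩ := (isCompact_closedBall c ρ).exists_bound_of_continuousOn hGc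
  have hDG' : ∀ z ∈ A, ‖G z‖ ≤ DG := fun z hz => hDG z (hAc hz)
  have hDG0 : 0 ≤ DG := (norm_nonneg _).trans (hDG c (mem_closedBall_self hρ.le))
  have hGm : AEStronglyMeasurable G (volume.restrict A) := (hGc.mono hAc).aestronglyMeasurable hA
  -- the vectors `Ma j z x`
  obtain ⟨h6a, h6b⟩ := F.n6 x
  have hax : ∀ j, Adm P A (fun z => Ma j z x) := by
    intro j
    refine ⟨((F.ca j).clm_apply continuous_const).aestronglyMeasurable, ?_⟩
    refine ne_top_of_le_ne_top ?_ ((lintegral_mono_set hAR).trans (h6a j))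
    exact ENNReal.mul_ne_top ENNReal.coe_ne_top (ENNReal.rpow_ne_top_of_nonneg hP0.le (by simp))
  have hlx : ∀ j, Lw P A (fun z => Ma j z x) ≤ ((C : ℝ≥0∞) * ‖x‖ₑ ^ P) ^ (1 / P) := fun j =>
    ENNReal.rpow_le_rpow ((lintegral_mono_set hAR).trans (h6a j)) (by positivity)
  -- the functions
  set w : ℕ → ℕ → ℂ → E := fun n j z => wg c n z • G z (Ma j z x) with hw
  have hGx : ∀ j, Adm P A (fun z => G z (Ma j z x)) := fun j => (hax j).app hP hA hGm hDG'
  have hwadm : ∀ n j, Adm P A (w n j) := fun n j =>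
    (hGx j).mul hP hA (wg_meas c n).aestronglyMeasurable fun z hz => wg_le hρ n hz
  set Dn : ℕ → ℝ≥0 := fun n => (2 / ρ * ρ ^ n * DG).toNNReal with hDn
  have hwle : ∀ (n : ℕ) (y : ℂ → E), ∀ z ∈ A, ‖wg c n z • G z (y z)‖ₑ ≤ Dn n * ‖y z‖ₑ := by
    intro n y z hz
    have h1 : ‖wg c n z • G z (y z)‖ ≤ (2 / ρ * ρ ^ n * DG) * ‖y z‖ := by
      rw [norm_smul]
      calc ‖wg c n z‖ * ‖G z (y z)‖ ≤ (2 / ρ * ρ ^ n) * (DG * ‖y z‖) := by
            refine mul_le_mul (wg_le hρ n hz) ?_ (norm_nonneg _) (by positivity)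
            exact ((G z).le_opNorm _).trans
              (mul_le_mul_of_nonneg_right (hDG' z hz) (norm_nonneg _))
        _ = _ := by ring
    have h2 : ‖wg c n z • G z (y z)‖₊ ≤ Dn n * ‖y z‖₊ := by
      rw [← NNReal.coe_le_coe, NNReal.coe_mul, hDn, Real.coe_toNNReal _ (by positivity)]
      exact h1
    rw [enorm_le_coe.symm] at h2
    rwa [ENNReal.coe_mul, ← enorm_eq_nnnorm] at h2
  -- the approximate vectors
  set Y : ℕ → ℕ → E := fun n j => XX Mb A (w n j) with hY
  set L : ℝ≥0∞ := ((C : ℝ≥0∞) * ‖x‖ₑ ^ P) ^ (1 / P) with hL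
  have hLfin : L ≠ ⊤ := ENNReal.rpow_ne_top_of_nonneg (by positivity)
    (ENNReal.mul_ne_top ENNReal.coe_ne_top (ENNReal.rpow_ne_top_of_nonneg hP0.le (by simp)))
  have hYn : ∀ n j, ‖Y n j‖ ≤ C * (2 / ρ * ρ ^ n * DG) * L.toReal := by
    intro n j
    have h1 : ‖Y n j‖ₑ ≤ ((C * Dn n * L.toNNReal : ℝ≥0) : ℝ≥0∞) := by
      refine (F.normX hA hAR (hwadm n j)).trans ?_
      rw [ENNReal.coe_mul, ENNReal.coe_mul, ENNReal.coe_toNNReal hLfin, mul_assoc]
      gcongr
      exact (lw_mono hP hA (hwle n fun z => Ma j z x)).trans (by gcongr; exact hlx j)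
    refine (real_of_enorm h1).trans (le_of_eq ?_)
    rw [NNReal.coe_mul, NNReal.coe_mul, hDn, Real.coe_toNNReal _ (by positivity)]
    rfl
  have hcau : ∀ n, ∃ y, Tendsto (Y n) atTop (𝓝 y) := by
    intro n
    refine cauchySeq_tendsto_of_complete ?_
    set b : ℕ → ℝ≥0 := fun j => C * Dn n * ((r j : ℝ≥0∞) * ‖x‖ₑ ^ P).toNNReal ^ (1 / P) with hb
    refine cauchySeq_of_le_tendsto_0' (fun j => (b j : ℝ)) (fun j i hij => ?_) ?_
    · rw [dist_eq_norm, hY]
      simp only
      rw [F.subX hA hAR (hwadm n j) (hwadm n i)]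
      refine real_of_enorm ((F.normX hA hAR ((hwadm n j).sub hP (hwadm n i))).trans ?_)
      have h1 : Lw P A (fun z => w n j z - w n i z) ≤
          Dn n * Lw P A (fun z => Ma j z x - Ma i z x) := by
        refine lw_mono hP hA fun z hz => ?_
        have h2 : w n j z - w n i z = wg c n z • G z (Ma j z x - Ma i z x) := by
          rw [hw]
          simp only
          rw [map_sub, smul_sub]
        rw [h2]
        exact hwle n (fun z => Ma j z x - Ma i z x) z hz
      have h3 : Lw P A (fun z => Ma j z x - Ma i z x) ≤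
          ((r j : ℝ≥0∞) * ‖x‖ₑ ^ P) ^ (1 / P) :=
        ENNReal.rpow_le_rpow ((lintegral_mono_set hAR).trans (h6b i j hij)) (by positivity)
      have hf : (r j : ℝ≥0∞) * ‖x‖ₑ ^ P ≠ ⊤ :=
        ENNReal.mul_ne_top ENNReal.coe_ne_top (ENNReal.rpow_ne_top_of_nonneg hP0.le (by simp))
      have h4 : ((b j : ℝ≥0) : ℝ≥0∞) = C * (Dn n * ((r j : ℝ≥0∞) * ‖x‖ₑ ^ P) ^ (1 / P)) := by
        rw [hb]
        simp only
        rw [ENNReal.coe_mul, ENNReal.coe_mul, ENNReal.coe_rpow_of_nonneg _ (by positivity),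
          ENNReal.coe_toNNReal hf, mul_assoc]
      rw [h4]
      gcongr
      exact h1.trans (by gcongr)
    · have h1 : Tendsto (fun j => ((r j : ℝ≥0∞) * ‖x‖ₑ ^ P).toNNReal) atTop (𝓝 0) := by
        have h2 : ∀ j, ((r j : ℝ≥0∞) * ‖x‖ₑ ^ P).toNNReal = r j * (‖x‖ₑ ^ P).toNNReal := by
          intro j
          rw [ENNReal.toNNReal_mul, ENNReal.toNNReal_coe]
        simp_rw [h2]
        simpa using F.r0.mul_const ((‖x‖ₑ ^ P).toNNReal)
      have h3 : Tendsto (fun j => ((r j : ℝ≥0∞) * ‖x‖ₑ ^ P).toNNReal ^ (1 / P)) atTop (𝓝 0) := by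
        have h4 := ((NNReal.continuous_rpow_const (y := 1 / P) (by positivity)).tendsto 0).comp h1
        rw [NNReal.zero_rpow (by positivity)] at h4
        exact h4
      have h5 : Tendsto b atTop (𝓝 0) := by
        have h := h3.const_mul (C * Dn n)
        rwa [mul_zero] at h
      have h6 := NNReal.tendsto_coe.2 h5
      rwa [NNReal.coe_zero] at h6
  choose y hy using hcau
  -- the equation for the approximate vectors
  have hmx : ∀ n, Adm P A (fun z => wg c n z • x) := by
    intro n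
    have h0 : Adm P A (fun _ => x) := adm_of_memLp hP (memLp_const x)
    exact h0.mul hP hA (wg_meas c n).aestronglyMeasurable fun z hz => wg_le hρ n hz
  have hMx : ∀ n j, Adm P A (fun z => Mc j z (wg c n z • x)) := by
    intro n j
    obtain ⟨D', -, hD'⟩ := bdd_of_cont (F.cc j) R
    exact (hmx n).app hP hA (F.cc j).aestronglyMeasurable fun z hz => hD' z (hAR hz)
  have heq : ∀ n j, (N + K) (Y n j) - c • Y n j =
      Y (n + 1) j - ∫ z in A, Mc j z (wg c n z • x) := by
    intro n j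
    rw [hY]
    simp only
    rw [F.TX hA hAU hDH' (hwadm n j), F.smulX hA hAR (hwadm n j)]
    have h1 : ∫ z in A, Mn z (w n j z - H z (w n j z)) = ∫ z in A, Mc j z (wg c n z • x) := by
      refine setIntegral_congr_fun hA fun z hz => ?_
      have h2 : (1 - H z) * G z = 1 := Ring.mul_inverse_cancel _ (hu z (hAc hz))
      have h3 : w n j z - H z (w n j z) = wg c n z • Ma j z x := by
        have h4 := congrArg (fun Q : E →L[ℂ] E => Q (Ma j z x)) h2
        simp only [ContinuousLinearMap.mul_apply, sub_apply, ContinuousLinearMap.one_apply] at h4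
        rw [hw]
        simp only
        rw [map_smul, ← smul_sub, h4]
      have h5 := congrArg (fun Q : E →L[ℂ] E => Q x) (F.n2 j z)
      simp only [ContinuousLinearMap.mul_apply] at h5
      show Mn z (w n j z - H z (w n j z)) = Mc j z (wg c n z • x)
      rw [h3, map_smul, map_smul, h5]
    have hzw : Adm P A (fun z => z • w n j z) :=
      (hwadm n j).mul hP hA measurable_id.aestronglyMeasurable (D := R) fun z hz =>
        (mem_ball_zero_iff.1 (hAR hz)).le
    have hcw : Adm P A (fun z => c • w n j z) :=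
      (hwadm n j).mul hP hA (aestronglyMeasurable_const (b := c)) (D := ‖c‖) fun z _ => le_rfl
    have h7 : XX Mb A (fun z => z • w n j z) - XX Mb A (fun z => c • w n j z) =
        XX Mb A (w (n + 1) j) := by
      rw [F.subX hA hAR hzw hcw]
      congr 1
      funext z
      rw [hw]
      simp only
      rw [← sub_smul, smul_smul, wg_mul]
    rw [h1, ← h7]
    abel
  have hlim : ∀ n, Tendsto (fun j => ∫ z in A, Mc j z (wg c n z • x)) atTop
      (𝓝 ((∫ z in A, wg c n z) • x)) := by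
    intro n
    have h1 : (∫ z in A, wg c n z) • x = ∫ z in A, wg c n z • x := (integral_smul_const _ _).symm
    rw [h1, tendsto_iff_norm_sub_tendsto_zero]
    have h2 : ∀ j, ‖(∫ z in A, Mc j z (wg c n z • x)) - ∫ z in A, wg c n z • x‖ ≤
        ((r j * (Lw P A fun z => wg c n z • x).toNNReal : ℝ≥0) : ℝ) := by
      intro j
      rw [norm_sub_rev, ← integral_sub ((hmx n).int hP hAR) ((hMx n j).int hP hAR)]
      have hf : (Lw P A fun z => wg c n z • x) ≠ ⊤ :=
        ENNReal.rpow_ne_top_of_nonneg (by positivity) (hmx n).f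
      refine real_of_enorm ?_
      rw [ENNReal.coe_mul, ENNReal.coe_toNNReal hf]
      exact (F.n5 A hA hAR _ (hmx n).m (hmx n).f).2.2.2 j
    refine squeeze_zero (fun j => norm_nonneg _) h2 ?_
    have h3 : Tendsto (fun j => r j * (Lw P A fun z => wg c n z • x).toNNReal) atTop (𝓝 0) := by
      simpa using F.r0.mul_const ((Lw P A fun z => wg c n z • x).toNNReal)
    have h4 := NNReal.tendsto_coe.2 h3
    rwa [NNReal.coe_zero] at h4
  have hmain : ∀ n, (N + K) (y n) - c • y n = y (n + 1) - (∫ z in A, wg c n z) • x := by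
    intro n
    have h1 : Tendsto (fun j => (N + K) (Y n j) - c • Y n j) atTop
        (𝓝 ((N + K) (y n) - c • y n)) :=
      (((N + K).continuous.tendsto _).comp (hy n)).sub ((hy n).const_smul c)
    have h2 := (hy (n + 1)).sub (hlim n)
    refine tendsto_nhds_unique h1 (h2.congr fun j => (heq n j).symm)
  obtain ⟨hrot1, hrot2⟩ := hROT c ρ hρ
  have hr1 : ∀ n, 1 ≤ n → ∫ z in A, wg c n z = 0 := fun n hn => hrot1 n hn
  have hr2 : (∫ z in A, wg c 0 z) ≠ 0 := by
    have h1 : (∫ z in A, wg c 0 z) = ∫ z in A, ((‖z - c‖⁻¹ : ℝ) : ℂ) := by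
      refine integral_congr_ae (Eventually.of_forall fun z => ?_)
      simp [wg]
    rw [h1]
    exact hrot2
  refine ⟨fun n => y (n + 1), -y 0, -(∫ z in A, wg c 0 z), C * (2 / ρ * ρ * DG) * L.toReal,
    fun n => ?_, fun n => ?_, ?_, neg_ne_zero.2 hr2⟩
  · rw [hmain (n + 1), hr1 (n + 1) (by omega), zero_smul, sub_zero]
  · have h1 : ‖y (n + 1)‖ ≤ C * (2 / ρ * ρ ^ (n + 1) * DG) * L.toReal :=
      le_of_tendsto (hy (n + 1)).norm (Eventually.of_forall fun j => hYn (n + 1) j)
    refine h1.trans (le_of_eq ?_)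
    rw [pow_succ]
    ring
  · have h1 := hmain 0
    have h2 : c • (-y 0) - (N + K) (-y 0) = (N + K) (y 0) - c • y 0 := by
      rw [map_neg, smul_neg]
      abel
    rw [h2, h1, neg_smul]
    abel

end Pool.Agent.K1H27.PL
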