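import Pool.Agent.K1H27.PL.Stm

/-!
# Project PL: abstract part
-/

set_option autoImplicit false

namespace Pool.Agent.K1H27.PL

open MeasureTheory Set Metric Filter Topology
open scoped ENNReal NNReal

variable {E : Type} [NormedAddCommGroup E] [NormedSpace ℂ E] [CompleteSpace E]

/-- the families of operators -/
structure Fam (P R : ℝ) (N K : E →L[ℂ] E) (H Mn : ℂ → (E →L[ℂ] E))
    (Ma Mb Mc : ℕ → ℂ → (E →L[ℂ] E)) (U : Set ℂ) (r : ℕ → ℝ≥0) (C : ℝ≥0) : Prop where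
  P1 : 1 ≤ P
  oU : IsOpen U
  UR : U ⊆ ball (0:ℂ) R
  cH : ContinuousOn H U
  cn : Continuous Mn
  ca : ∀ j, Continuous (Ma j)
  cb : ∀ j, Continuous (Mb j)
  cc : ∀ j, Continuous (Mc j)
  r0 : Tendsto r atTop (𝓝 0)
  n1 : ∀ j z, N * Mb j z = z • Mb j z - Mc j z * Mn z
  n2 : ∀ j z, Mn z * Ma j z = Mc j z
  n3 : ∀ j z, ‖Mn z - Mc j z * Mn z‖ ≤ r j
  n4 : ∀ᵐ z ∂(volume.restrict U), ∀ j, ‖K * Mb j z - Mn z * H z‖ ≤ r j
  n5 : ∀ A : Set ℂ, MeasurableSet A → A ⊆ ball (0:ℂ) R → ∀ w : ℂ → E,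
    AEStronglyMeasurable w (volume.restrict A) → ∫⁻ z in A, ‖w z‖ₑ ^ P ≠ ⊤ →
    (∀ j, IntegrableOn (fun z => Mb j z (w z)) A) ∧
    (∀ j, ‖∫ z in A, Mb j z (w z)‖ₑ ≤ C * (∫⁻ z in A, ‖w z‖ₑ ^ P) ^ (1 / P)) ∧
    (∀ i j, j ≤ i → ‖∫ z in A, (Mb j z (w z) - Mb i z (w z))‖ₑ ≤
      r j * (∫⁻ z in A, ‖w z‖ₑ ^ P) ^ (1 / P)) ∧
    ∀ j, ‖∫ z in A, (w z - Mc j z (w z))‖ₑ ≤ r j * (∫⁻ z in A, ‖w z‖ₑ ^ P) ^ (1 / P)
  n6 : ∀ x : E, (∀ j, ∫⁻ z in ball (0:ℂ) R, ‖Ma j z x‖ₑ ^ P ≤ C * ‖x‖ₑ ^ P) ∧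
    ∀ i j, j ≤ i → ∫⁻ z in ball (0:ℂ) R, ‖Ma j z x - Ma i z x‖ₑ ^ P ≤ r j * ‖x‖ₑ ^ P
  n7 : ∀ᵐ z : ℂ, ∀ f, Mn z f = 0 → f = 0

/-- the seminorm -/
noncomputable def Lw (P : ℝ) (A : Set ℂ) (w : ℂ → E) : ℝ≥0∞ :=
  (∫⁻ z in A, ‖w z‖ₑ ^ P) ^ (1 / P)

/-- admissible functions -/
structure Adm (P : ℝ) (A : Set ℂ) (w : ℂ → E) : Prop where
  m : AEStronglyMeasurable w (volume.restrict A)
  f : ∫⁻ z in A, ‖w z‖ₑ ^ P ≠ ⊤

theorem Adm.memLp {P : ℝ} (hP : 1 ≤ P) {A : Set ℂ} {w : ℂ → E} (h : Adm P A w) :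
    MemLp w (ENNReal.ofReal P) (volume.restrict A) := by
  have h0 : 0 < P := lt_of_lt_of_le one_pos hP
  refine ⟨h.m, ?_⟩
  rw [eLpNorm_eq_lintegral_rpow_enorm_toReal (by simpa using h0) ENNReal.ofReal_ne_top,
    ENNReal.toReal_ofReal h0.le]
  exact ENNReal.rpow_lt_top_of_nonneg (by positivity) h.f

theorem Adm.int {P R : ℝ} (hP : 1 ≤ P) {A : Set ℂ} (hA : A ⊆ ball (0:ℂ) R) {w : ℂ → E}
    (h : Adm P A w) : IntegrableOn w A := by
  have : IsFiniteMeasure (volume.restrict A) := by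
    refine ⟨?_⟩
    rw [Measure.restrict_apply MeasurableSet.univ, univ_inter]
    exact lt_of_le_of_lt (measure_mono hA) measure_ball_lt_top
  have h1 := (h.memLp hP).mono_exponent (p := 1) (by simpa using hP)
  exact memLp_one_iff_integrable.1 h1

theorem adm_of_memLp {P : ℝ} (hP : 1 ≤ P) {A : Set ℂ} {w : ℂ → E}
    (h : MemLp w (ENNReal.ofReal P) (volume.restrict A)) : Adm P A w := by
  have h0 : 0 < P := lt_of_lt_of_le one_pos hP
  refine ⟨h.1, ?_⟩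
  have h2 := h.2
  rw [eLpNorm_eq_lintegral_rpow_enorm_toReal (by simpa using h0) ENNReal.ofReal_ne_top,
    ENNReal.toReal_ofReal h0.le, ENNReal.rpow_lt_top_iff_of_pos (by positivity)] at h2
  exact h2.ne

theorem Adm.sub {P : ℝ} (hP : 1 ≤ P) {A : Set ℂ} {w w' : ℂ → E} (h : Adm P A w)
    (h' : Adm P A w') : Adm P A (fun z => w z - w' z) :=
  adm_of_memLp hP ((h.memLp hP).sub (h'.memLp hP))

/-- multiplication by a bounded function -/
theorem Adm.mul {P : ℝ} (hP : 1 ≤ P) {A : Set ℂ} (hA : MeasurableSet A) {w : ℂ → E}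
    (h : Adm P A w) {g : ℂ → ℂ} (hg : AEStronglyMeasurable g (volume.restrict A)) {D : ℝ}
    (hD : ∀ z ∈ A, ‖g z‖ ≤ D) : Adm P A (fun z => g z • w z) := by
  refine adm_of_memLp hP ?_
  refine MemLp.of_le_mul (c := D) (h.memLp hP) (hg.smul h.m) ?_
  filter_upwards [ae_restrict_mem hA] with z hz
  rw [norm_smul]
  exact mul_le_mul_of_nonneg_right (hD z hz) (norm_nonneg _)

/-- application of a bounded family of operators -/
theorem Adm.app {P : ℝ} (hP : 1 ≤ P) {A : Set ℂ} (hA : MeasurableSet A) {w : ℂ → E}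
    (h : Adm P A w) {G : ℂ → (E →L[ℂ] E)} (hG : AEStronglyMeasurable G (volume.restrict A))
    {D : ℝ} (hD : ∀ z ∈ A, ‖G z‖ ≤ D) : Adm P A (fun z => G z (w z)) := by
  refine adm_of_memLp hP ?_
  refine MemLp.of_le_mul (c := D) (h.memLp hP) ?_ ?_
  · exact (ContinuousLinearMap.apply ℂ E).flip.aestronglyMeasurable_comp₂ hG h.m
  · filter_upwards [ae_restrict_mem hA] with z hz
    exact (ContinuousLinearMap.le_opNorm _ _).trans
      (mul_le_mul_of_nonneg_right (hD z hz) (norm_nonneg _))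

theorem lw_mono {P : ℝ} (hP : 1 ≤ P) {A : Set ℂ} (hA : MeasurableSet A) {w w' : ℂ → E} {D : ℝ≥0}
    (h : ∀ z ∈ A, ‖w z‖ₑ ≤ D * ‖w' z‖ₑ) : Lw P A w ≤ D * Lw P A w' := by
  have h0 : 0 < P := lt_of_lt_of_le one_pos hP
  unfold Lw
  have h1 : ∫⁻ z in A, ‖w z‖ₑ ^ P ≤ (D : ℝ≥0∞) ^ P * ∫⁻ z in A, ‖w' z‖ₑ ^ P := by
    rw [← lintegral_const_mul' _ _ (ENNReal.rpow_ne_top_of_nonneg h0.le ENNReal.coe_ne_top)]
    refine lintegral_mono_ae ?_
    filter_upwards [ae_restrict_mem hA] with z hz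
    rw [← ENNReal.mul_rpow_of_nonneg _ _ h0.le]
    exact ENNReal.rpow_le_rpow (h z hz) h0.le
  calc (∫⁻ z in A, ‖w z‖ₑ ^ P) ^ (1 / P) ≤ ((D : ℝ≥0∞) ^ P * ∫⁻ z in A, ‖w' z‖ₑ ^ P) ^ (1 / P) :=
        ENNReal.rpow_le_rpow h1 (by positivity)
    _ = _ := by
        rw [ENNReal.mul_rpow_of_nonneg _ _ (by positivity), ← ENNReal.rpow_mul,
          mul_one_div_cancel h0.ne', ENNReal.rpow_one]

section fam

variable {P R : ℝ} {N K : E →L[ℂ] E} {H Mn : ℂ → (E →L[ℂ] E)}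
  {Ma Mb Mc : ℕ → ℂ → (E →L[ℂ] E)} {U : Set ℂ} {r : ℕ → ℝ≥0} {C : ℝ≥0}

theorem Fam.r0' (F : Fam P R N K H Mn Ma Mb Mc U r C) :
    Tendsto (fun j => (r j : ℝ)) atTop (𝓝 0) := by
  have h := NNReal.tendsto_coe.2 F.r0
  rwa [NNReal.coe_zero] at h

/-- `∫ β_z w_z dz` as a limit -/
theorem Fam.exX (F : Fam P R N K H Mn Ma Mb Mc U r C) {A : Set ℂ} (hA : MeasurableSet A)
    (hAR : A ⊆ ball (0:ℂ) R) {w : ℂ → E} (hw : Adm P A w) :
    ∃ X : E, Tendsto (fun j => ∫ z in A, Mb j z (w z)) atTop (𝓝 X) := by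
  obtain ⟨h1, -, h3, -⟩ := F.n5 A hA hAR w hw.m hw.f
  have h0 : 0 < P := lt_of_lt_of_le one_pos F.P1
  set L : ℝ≥0 := ((∫⁻ z in A, ‖w z‖ₑ ^ P) ^ (1 / P)).toNNReal with hL
  have hLf : (∫⁻ z in A, ‖w z‖ₑ ^ P) ^ (1 / P) ≠ ⊤ :=
    ENNReal.rpow_ne_top_of_nonneg (by positivity) hw.f
  have h4 : ∀ i j, j ≤ i → ‖(∫ z in A, Mb j z (w z)) - ∫ z in A, Mb i z (w z)‖ ≤ r j * L := by
    intro i j hij
    rw [← integral_sub (h1 j) (h1 i)]
    have h5 : ‖∫ z in A, (Mb j z (w z) - Mb i z (w z))‖ₑ ≤ ((r j * L : ℝ≥0) : ℝ≥0∞) := by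
      rw [ENNReal.coe_mul, hL, ENNReal.coe_toNNReal hLf]
      exact h3 i j hij
    have h6 : ‖∫ z in A, (Mb j z (w z) - Mb i z (w z))‖₊ ≤ r j * L := enorm_le_coe.1 h5
    exact_mod_cast h6
  refine cauchySeq_tendsto_of_complete ?_
  refine cauchySeq_of_le_tendsto_0' (fun j => (r j : ℝ) * L) (fun j i hij => ?_) ?_
  · rw [dist_eq_norm]
    exact h4 i j hij
  · simpa using F.r0'.mul_const (L : ℝ)

/-- `∫ β_z w_z dz` -/
noncomputable def XX (Mb : ℕ → ℂ → (E →L[ℂ] E)) (A : Set ℂ) (w : ℂ → E) : E :=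
  limUnder atTop (fun j => ∫ z in A, Mb j z (w z))

theorem Fam.tX (F : Fam P R N K H Mn Ma Mb Mc U r C) {A : Set ℂ} (hA : MeasurableSet A)
    (hAR : A ⊆ ball (0:ℂ) R) {w : ℂ → E} (hw : Adm P A w) :
    Tendsto (fun j => ∫ z in A, Mb j z (w z)) atTop (𝓝 (XX Mb A w)) := by
  obtain ⟨X, hX⟩ := F.exX hA hAR hw
  unfold XX
  rw [hX.limUnder_eq]
  exact hX

theorem Fam.normX (F : Fam P R N K H Mn Ma Mb Mc U r C) {A : Set ℂ} (hA : MeasurableSet A)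
    (hAR : A ⊆ ball (0:ℂ) R) {w : ℂ → E} (hw : Adm P A w) :
    ‖XX Mb A w‖ₑ ≤ C * Lw P A w := by
  obtain ⟨-, h2, -, -⟩ := F.n5 A hA hAR w hw.m hw.f
  exact le_of_tendsto ((continuous_enorm.tendsto _).comp (F.tX hA hAR hw))
    (Eventually.of_forall h2)

theorem Fam.subX (F : Fam P R N K H Mn Ma Mb Mc U r C) {A : Set ℂ} (hA : MeasurableSet A)
    (hAR : A ⊆ ball (0:ℂ) R) {w w' : ℂ → E} (hw : Adm P A w) (hw' : Adm P A w') :
    XX Mb A w - XX Mb A w' = XX Mb A (fun z => w z - w' z) := by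
  have h1 := (F.tX hA hAR hw).sub (F.tX hA hAR hw')
  have h2 := F.tX hA hAR (hw.sub F.P1 hw')
  refine tendsto_nhds_unique h1 (h2.congr fun j => ?_)
  rw [← integral_sub ((F.n5 A hA hAR w hw.m hw.f).1 j) ((F.n5 A hA hAR w' hw'.m hw'.f).1 j)]
  refine integral_congr_ae (Eventually.of_forall fun z => ?_)
  simp only [map_sub]

theorem Fam.smulX (F : Fam P R N K H Mn Ma Mb Mc U r C) {A : Set ℂ} (hA : MeasurableSet A)
    (hAR : A ⊆ ball (0:ℂ) R) {w : ℂ → E} (hw : Adm P A w) (c : ℂ) :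
    c • XX Mb A w = XX Mb A (fun z => c • w z) := by
  have h1 := (F.tX hA hAR hw).const_smul c
  have h3 : Adm P A (fun z => c • w z) :=
    hw.mul F.P1 hA (aestronglyMeasurable_const (b := c)) (D := ‖c‖) fun z _ => le_rfl
  have h2 := F.tX hA hAR h3
  refine tendsto_nhds_unique h1 (h2.congr fun j => ?_)
  rw [← integral_smul]
  refine integral_congr_ae (Eventually.of_forall fun z => ?_)
  simp only [map_smul]

/-- boundedness of a continuous family on a bounded set -/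
theorem bdd_of_cont {G : ℂ → (E →L[ℂ] E)} (hG : Continuous G) (R : ℝ) :
    ∃ D : ℝ, 0 ≤ D ∧ ∀ z ∈ ball (0:ℂ) R, ‖G z‖ ≤ D := by
  obtain ⟨D, hD⟩ := (isCompact_closedBall (0:ℂ) R).exists_bound_of_continuousOn hG.continuousOn
  exact ⟨max D 0, le_max_right _ _, fun z hz => (hD z (ball_subset_closedBall hz)).trans
    (le_max_left _ _)⟩

/-- the normal part -/
theorem Fam.NX (F : Fam P R N K H Mn Ma Mb Mc U r C) {A : Set ℂ} (hA : MeasurableSet A)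
    (hAR : A ⊆ ball (0:ℂ) R) {w : ℂ → E} (hw : Adm P A w) :
    N (XX Mb A w) = XX Mb A (fun z => z • w z) - ∫ z in A, Mn z (w z) := by
  have hzw : Adm P A (fun z => z • w z) :=
    hw.mul F.P1 hA (measurable_id.aestronglyMeasurable) (D := R) fun z hz =>
      (mem_ball_zero_iff.1 (hAR hz)).le
  obtain ⟨D, hD0, hD⟩ := bdd_of_cont F.cn R
  have hMn : Adm P A (fun z => Mn z (w z)) :=
    hw.app F.P1 hA F.cn.aestronglyMeasurable fun z hz => hD z (hAR hz)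
  have h1 : Tendsto (fun j => N (∫ z in A, Mb j z (w z))) atTop (𝓝 (N (XX Mb A w))) :=
    (N.continuous.tendsto _).comp (F.tX hA hAR hw)
  have hcc : ∀ j, Adm P A (fun z => Mc j z (Mn z (w z))) := by
    intro j
    obtain ⟨D', -, hD'⟩ := bdd_of_cont (F.cc j) R
    exact hMn.app F.P1 hA (F.cc j).aestronglyMeasurable fun z hz => hD' z (hAR hz)
  have h2 : Tendsto (fun j => (∫ z in A, Mb j z (z • w z)) - ∫ z in A, Mc j z (Mn z (w z)))
      atTop (𝓝 (XX Mb A (fun z => z • w z) - ∫ z in A, Mn z (w z))) := by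
    refine (F.tX hA hAR hzw).sub ?_
    rw [tendsto_iff_norm_sub_tendsto_zero]
    have h3 : ∀ j, ‖(∫ z in A, Mc j z (Mn z (w z))) - ∫ z in A, Mn z (w z)‖ ≤
        r j * ∫ z in A, ‖w z‖ := by
      intro j
      rw [← integral_sub ((hcc j).int F.P1 hAR) (hMn.int F.P1 hAR), ← integral_const_mul]
      refine norm_integral_le_of_norm_le ((hw.int F.P1 hAR).norm.const_mul _)
        (Eventually.of_forall fun z => ?_)
      have h4 : Mc j z (Mn z (w z)) - Mn z (w z) = -((Mn z - Mc j z * Mn z) (w z)) := by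
        rw [sub_apply, ContinuousLinearMap.mul_apply, neg_sub]
      rw [h4, norm_neg]
      exact (ContinuousLinearMap.le_opNorm _ _).trans
        (mul_le_mul_of_nonneg_right (F.n3 j z) (norm_nonneg _))
    refine squeeze_zero (fun j => norm_nonneg _) h3 ?_
    simpa using F.r0'.mul_const (∫ z in A, ‖w z‖)
  refine tendsto_nhds_unique h1 (h2.congr fun j => ?_)
  rw [← ContinuousLinearMap.integral_comp_comm N ((F.n5 A hA hAR w hw.m hw.f).1 j),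
    ← integral_sub ((F.n5 A hA hAR _ hzw.m hzw.f).1 j) ((hcc j).int F.P1 hAR)]
  refine integral_congr_ae (Eventually.of_forall fun z => ?_)
  have h6 := congrArg (fun L : E →L[ℂ] E => L (w z)) (F.n1 j z)
  simp only [ContinuousLinearMap.mul_apply, sub_apply, smul_apply] at h6
  simp only [map_smul]
  exact h6.symm

/-- the compact part -/
theorem Fam.KX (F : Fam P R N K H Mn Ma Mb Mc U r C) {A : Set ℂ} (hA : MeasurableSet A)
    (hAU : A ⊆ U) {D : ℝ} (hD : ∀ z ∈ A, ‖H z‖ ≤ D) {w : ℂ → E} (hw : Adm P A w) :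
    K (XX Mb A w) = ∫ z in A, Mn z (H z (w z)) := by
  have hAR := hAU.trans F.UR
  have h1 : Tendsto (fun j => K (∫ z in A, Mb j z (w z))) atTop (𝓝 (K (XX Mb A w))) :=
    (K.continuous.tendsto _).comp (F.tX hA hAR hw)
  obtain ⟨D', -, hD'⟩ := bdd_of_cont F.cn R
  have hHm : AEStronglyMeasurable H (volume.restrict A) :=
    (F.cH.mono hAU).aestronglyMeasurable hA
  have hHw : Adm P A (fun z => H z (w z)) := hw.app F.P1 hA hHm hD
  have hMH : Adm P A (fun z => Mn z (H z (w z))) :=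
    hHw.app F.P1 hA F.cn.aestronglyMeasurable fun z hz => hD' z (hAR hz)
  refine tendsto_nhds_unique h1 ?_
  rw [tendsto_iff_norm_sub_tendsto_zero]
  have h3 : ∀ j, ‖K (∫ z in A, Mb j z (w z)) - ∫ z in A, Mn z (H z (w z))‖ ≤
      r j * ∫ z in A, ‖w z‖ := by
    intro j
    have hb := (F.n5 A hA hAR w hw.m hw.f).1 j
    rw [← ContinuousLinearMap.integral_comp_comm K hb,
      ← integral_sub (K.integrable_comp hb) (hMH.int F.P1 hAR), ← integral_const_mul]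
    refine norm_integral_le_of_norm_le ((hw.int F.P1 hAR).norm.const_mul _) ?_
    filter_upwards [ae_restrict_of_ae_restrict_of_subset hAU F.n4] with z hz
    have h4 : K (Mb j z (w z)) - Mn z (H z (w z)) = (K * Mb j z - Mn z * H z) (w z) := by
      rw [sub_apply, ContinuousLinearMap.mul_apply, ContinuousLinearMap.mul_apply]
    rw [h4]
    exact (ContinuousLinearMap.le_opNorm _ _).trans
      (mul_le_mul_of_nonneg_right (hz j) (norm_nonneg _))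
  refine squeeze_zero (fun j => norm_nonneg _) h3 ?_
  simpa using F.r0'.mul_const (∫ z in A, ‖w z‖)

end fam

end Pool.Agent.K1H27.PL
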