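import Pool.Agent.K1H27.PL.Fin2
import Pool.Agent.K1H37.PL.Cac
import Pool.Agent.K1H59.PL.Rado
import Pool.Agent.K1H69.PL.Locd
import Pool.Agent.K1H26.PL.Eig
import Pool.Agent.K1H10.PL.Cor2
import Pool.Agent.K1H65.PL.LD

/-!
# Project PL: the theorem
-/

set_option autoImplicit false

namespace Pool.Agent.K1H27.PL

open MeasureTheory Set Metric Filter Topology
open scoped ENNReal NNReal
open Pool.Agent.K1H27.VM (HasHyp IsInt IsMul HT)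

variable {S : Type} [MeasurableSpace S] {μ : Measure S}

theorem final [SigmaFinite μ] {p q : ℝ≥0∞} [Fact (1 ≤ p)] (hpq : p.HolderConjugate q)
    (hp : p ≠ ∞) (hq : q ≠ ∞) {φ : S → ℂ} (hφ : Measurable φ)
    (hφb : ∃ M : ℝ, ∀ s, ‖φ s‖ ≤ M) {U : Set ℂ} {γ γ' : ℝ} {D D' : ℝ≥0} {k : S → S → ℂ}
    (hU : IsOpen U) (hγ : 1 < γ) (hγ' : 1 < γ') (hk : Measurable (Function.uncurry k))
    (hW : WW μ p q φ γ U k D) (hW' : WW μ q p φ γ' U (fun s t => k t s) D')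
    (hpos : μ (φ ⁻¹' U) ≠ 0) :
    ∃ T : Lp ℂ p μ →L[ℂ] Lp ℂ p μ,
      (∀ g : Lp ℂ p μ, ⇑(T g) =ᵐ[μ] fun s => φ s * g s + ∫ t, k s t * g t ∂μ) ∧
      ((∃ c : ℂ, T = c • (1 : Lp ℂ p μ →L[ℂ] Lp ℂ p μ)) ∨ HasHyp T) ∧
      ∀ V : Set ℂ, IsOpen V → V ⊆ U → μ (φ ⁻¹' V) ≠ 0 →
        ∃ (x : Lp ℂ p μ) (c : ℂ) (ρ C : ℝ), x ≠ 0 ∧ 0 < ρ ∧ closedBall c ρ ⊆ V ∧
          ∀ n : ℕ, ‖((T - c • (1 : Lp ℂ p μ →L[ℂ] Lp ℂ p μ)) ^ n) x‖ ≤ C * ρ ^ n :=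
  main2 (Pool.Agent.K1H59.PL.Rado.t_RADO Pool.Agent.K1H37.PL.t_CAC)
    (Pool.Agent.K1H65.PL.t_LD Pool.Agent.K1H69.PL.t_LOCD) Pool.Agent.K1H26.PL.t_EIG
    Pool.Agent.K1H26.PL.t_ATM Pool.Agent.K1H26.PL.t_PRF hpq hp hq hφ hφb hU hγ hγ' hk hW hW' hpos

end Pool.Agent.K1H27.PL
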