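import Pool.Agent.K1H27.PL.Inst
import Pool.Agent.K1H28.VM.PAIR
import Pool.Agent.K1H28.VM.OP
import Pool.Agent.K1H48.VM.DUAL
import Pool.Agent.K1H59.PL.Mul
import Pool.Agent.K1H39.PL.Sch
import Pool.Agent.K1H1.PL.Rat
import Pool.Agent.K1H68.PL.APX
import Pool.Agent.K1H10.PL.Selm
import Pool.Agent.K1H38.PL.SEL
import Pool.Agent.K1H96.PL.Spc
import Pool.Agent.K1H45.PL.Ker
import Pool.Agent.K1H99.PL.Cor

/-!
# Project PL: the theorem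
-/

set_option autoImplicit false

namespace Pool.Agent.K1H27.PL

open MeasureTheory Set Metric Filter Topology
open scoped ENNReal NNReal
open Pool.Agent.K1H27.VM (HasHyp IsInt IsMul HT)

variable {S : Type} [MeasurableSpace S] {μ : Measure S}

theorem t_KER' : S_KER :=
  Pool.Agent.K1H45.PL.t_KER Pool.Agent.K1H59.PL.t_MUL Pool.Agent.K1H59.PL.t_CTS
    Pool.Agent.K1H68.PL.t_APX

/-- vectors with small local spectra near the essential range -/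
theorem loc1 [SigmaFinite μ] {p q : ℝ≥0∞} [Fact (1 ≤ p)] [Fact (1 ≤ q)]
    (hpq : p.HolderConjugate q) (hp : p ≠ ∞) (hq : q ≠ ∞) {φ : S → ℂ} (hφ : Measurable φ)
    (hφb : ∃ M : ℝ, ∀ s, ‖φ s‖ ≤ M) {U : Set ℂ} {R γ : ℝ} {D : ℝ≥0} {k : S → S → ℂ}
    (hU : IsOpen U) (hUn : U.Nonempty) (hUR : U ⊆ ball (0:ℂ) R) (hγ : 1 < γ)
    (hk : Measurable (Function.uncurry k)) (hW : WW μ p q φ γ U k D)
    {N K : Lp ℂ p μ →L[ℂ] Lp ℂ p μ} (hN : IsMul φ N) (hK : IsInt k K) {d : ℂ} {ρ₀ : ℝ}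
    (hρ₀ : 0 < ρ₀) (hd : closedBall d ρ₀ ⊆ U) (hpos : 0 < volume (essR μ φ ∩ ball d ρ₀)) :
    ∃ (c : ℂ) (ρ : ℝ), 0 < ρ ∧ ρ ≤ ρ₀ ∧ closedBall c ρ ⊆ closedBall d ρ₀ ∧
      Seq (N + K) c ρ := by
  obtain ⟨H, Mn, Ma, Mb, Mc, r, C, hF, -, hap⟩ := exFam Pool.Agent.K1H59.PL.t_MUL
    Pool.Agent.K1H59.PL.t_CTS Pool.Agent.K1H39.PL.t_SCHA Pool.Agent.K1H39.PL.t_SCHB
    Pool.Agent.K1H1.PL.t_RAT t_KER' hpq hp hq hφ hφb hU hUn hUR hγ hk hW hN hK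
  have hHT : HT μ p q k ≠ ∞ :=
    (t_KER' S μ p q hpq hp hq φ hφ hφb U R γ D k hU hUn hUR hγ hk hW).1
  set G : Set ℂ := essR μ φ ∩ {c | μ {s | φ s = c} = 0} with hGdef
  have hG : ∀ c ∈ G, ∃ x : ℕ → Lp ℂ p μ, (∀ n, ‖x n‖ = 1) ∧
      Tendsto (fun n => (N + K) (x n) - c • x n) atTop (𝓝 0) := fun c hc =>
    Pool.Agent.K1H96.PL.t_SPC S μ p q hpq hp hq φ hφ hφb k hk hHT N K hN hK c hc.1 hc.2
  have hpos' : 0 < volume (G ∩ ball d ρ₀) := by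
    refine lt_of_lt_of_le hpos ?_
    have h1 : essR μ φ ∩ ball d ρ₀ ⊆ (G ∩ ball d ρ₀) ∪ {c | ¬ μ {s | φ s = c} = 0} := by
      intro c hc
      by_cases h : μ {s | φ s = c} = 0
      · exact Or.inl ⟨⟨hc.1, h⟩, hc.2⟩
      · exact Or.inr h
    have h2 : volume {c : ℂ | ¬ μ {s | φ s = c} = 0} = 0 := ae_iff.1 (level_ae (μ := μ) hφ)
    calc volume (essR μ φ ∩ ball d ρ₀) ≤
          volume ((G ∩ ball d ρ₀) ∪ {c | ¬ μ {s | φ s = c} = 0}) := measure_mono h1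
      _ ≤ volume (G ∩ ball d ρ₀) + volume {c | ¬ μ {s | φ s = c} = 0} := measure_union_le _ _
      _ = volume (G ∩ ball d ρ₀) := by rw [h2, add_zero]
  exact hF.side (Pool.Agent.K1H38.PL.t_SEL Pool.Agent.K1H10.PL.t_SELM) Pool.Agent.K1H1.PL.t_ROT
    hap hG hρ₀ hd hpos'

theorem WW.mono {p q : ℝ≥0∞} {φ : S → ℂ} {γ : ℝ} {U U' : Set ℂ} {k : S → S → ℂ} {D : ℝ≥0}
    (h : WW μ p q φ γ U k D) (hU : U' ⊆ U) : WW μ p q φ γ U' k D :=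
  fun z hz z' hz' => h z (hU hz) z' (hU hz')

theorem essR_sub {φ : S → ℂ} {M : ℝ} (hM : ∀ s, ‖φ s‖ ≤ M) : essR μ φ ⊆ ball (0:ℂ) (M + 1) := by
  intro c hc
  rw [mem_ball_zero_iff]
  by_contra h
  push Not at h
  have h1 := hc 1 one_pos
  have h2 : {s | ‖φ s - c‖ < 1} = ∅ := by
    rw [eq_empty_iff_forall_notMem]
    intro s hs
    have h3 : ‖φ s - c‖ < 1 := hs
    have h4 : ‖c‖ ≤ ‖φ s - c‖ + ‖φ s‖ := by
      calc ‖c‖ = ‖φ s - (φ s - c)‖ := by rw [sub_sub_cancel]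
        _ ≤ ‖φ s‖ + ‖φ s - c‖ := norm_sub_le _ _
        _ = _ := add_comm _ _
    linarith [hM s]
  rw [h2, measure_empty] at h1
  exact lt_irrefl _ h1

theorem Seq.pow {E : Type} [NormedAddCommGroup E] [NormedSpace ℂ E] {T : E →L[ℂ] E} {c : ℂ}
    {ρ : ℝ} (h : Seq T c ρ) : ∃ (x : E) (D : ℝ), x ≠ 0 ∧
      ∀ n : ℕ, ‖((T - c • (1 : E →L[ℂ] E)) ^ n) x‖ ≤ D * ρ ^ n := by
  obtain ⟨X, D, h1, h2, h3⟩ := h
  have hrec : ∀ n : ℕ, ((T - c • (1 : E →L[ℂ] E)) ^ n) (X 0) = X n := by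
    intro n
    induction n with
    | zero => simp
    | succ n ih =>
      rw [pow_succ', ContinuousLinearMap.mul_apply, ih]
      exact h1 n
  exact ⟨X 0, D, h3, fun n => by rw [hrec]; exact h2 n⟩

/-- the theorem -/
theorem main [SigmaFinite μ] {p q : ℝ≥0∞} [Fact (1 ≤ p)] (hpq : p.HolderConjugate q)
    (hp : p ≠ ∞) (hq : q ≠ ∞) {φ : S → ℂ} (hφ : Measurable φ)
    (hφb : ∃ M : ℝ, ∀ s, ‖φ s‖ ≤ M) {U : Set ℂ} {γ γ' : ℝ} {D D' : ℝ≥0} {k : S → S → ℂ}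
    (hU : IsOpen U) (hγ : 1 < γ) (hγ' : 1 < γ') (hk : Measurable (Function.uncurry k))
    (hW : WW μ p q φ γ U k D) (hW' : WW μ q p φ γ' U (fun s t => k t s) D')
    (hpos : 0 < volume (U ∩ essR μ φ)) :
    ∃ T : Lp ℂ p μ →L[ℂ] Lp ℂ p μ,
      (∀ g : Lp ℂ p μ, ⇑(T g) =ᵐ[μ] fun s => φ s * g s + ∫ t, k s t * g t ∂μ) ∧ HasHyp T ∧
      ∀ V : Set ℂ, IsOpen V → V ⊆ U → 0 < volume (V ∩ essR μ φ) →
        ∃ (x : Lp ℂ p μ) (c : ℂ) (ρ C : ℝ), x ≠ 0 ∧ 0 < ρ ∧ closedBall c ρ ⊆ V ∧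
          ∀ n : ℕ, ‖((T - c • (1 : Lp ℂ p μ →L[ℂ] Lp ℂ p μ)) ^ n) x‖ ≤ C * ρ ^ n := by
  have : Fact (1 ≤ q) := ⟨hpq.symm.one_le⟩
  obtain ⟨M, hM⟩ := hφb
  have hφb : ∃ M : ℝ, ∀ s, ‖φ s‖ ≤ M := ⟨M, hM⟩
  set U' : Set ℂ := U ∩ ball (0:ℂ) (M + 1) with hU'
  have hUo' : IsOpen U' := hU.inter isOpen_ball
  have hUR' : U' ⊆ ball (0:ℂ) (M + 1) := inter_subset_right
  have hess := essR_sub (μ := μ) hM
  have hpos' : volume (essR μ φ ∩ U') ≠ 0 := by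
    have h1 : essR μ φ ∩ U' = U ∩ essR μ φ := by
      ext z
      constructor
      · rintro ⟨h1, h2, -⟩
        exact ⟨h2, h1⟩
      · rintro ⟨h1, h2⟩
        exact ⟨h2, h1, hess h2⟩
    rw [h1]
    exact hpos.ne'
  have hUn' : U'.Nonempty := by
    obtain ⟨z, hz⟩ := nonempty_of_measure_ne_zero hpos'
    exact ⟨z, hz.2⟩
  have hW1 := hW.mono (U' := U') inter_subset_left
  have hW1' := hW'.mono (U' := U') inter_subset_left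
  have hk' : Measurable (Function.uncurry fun s t => k t s) := hk.comp measurable_swap
  have hHT : HT μ p q k ≠ ∞ :=
    (t_KER' S μ p q hpq hp hq φ hφ hφb U' (M + 1) γ D k hUo' hUn' hUR' hγ hk hW1).1
  have hHT' : HT μ q p (fun s t => k t s) ≠ ∞ :=
    (t_KER' S μ q p hpq.symm hq hp φ hφ hφb U' (M + 1) γ' D' _ hUo' hUn' hUR' hγ' hk' hW1').1
  obtain ⟨⟨K, hK⟩, hKK⟩ := Pool.Agent.K1H28.VM.t_OP S μ p q hpq hp hq k hk hHT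
  obtain ⟨⟨K', hK'⟩, -⟩ := Pool.Agent.K1H28.VM.t_OP S μ q p hpq.symm hq hp
    (fun s t => k t s) hk' hHT'
  obtain ⟨⟨B, hB, hB0, hBn⟩, hmul⟩ := Pool.Agent.K1H28.VM.t_PAIR S μ p q hpq hp hq
  obtain ⟨N, hN⟩ := hmul φ hφ hφb
  obtain ⟨-, hmul'⟩ := Pool.Agent.K1H28.VM.t_PAIR S μ q p hpq.symm hq hp
  obtain ⟨N', hN'⟩ := hmul' φ hφ hφb
  have hT : ∀ g : Lp ℂ p μ, ⇑((N + K) g) =ᵐ[μ] fun s => φ s * g s + ∫ t, k s t * g t ∂μ := by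
    intro g
    filter_upwards [Lp.coeFn_add (N g) (K g), hN g, hK g] with x h1 h2 h3
    show (N g + K g : Lp ℂ p μ) x = _
    rw [h1, Pi.add_apply, h2, h3]
  have hBT : ∀ g f, B ((N' + K') g) f = B g ((N + K) f) := by
    intro g f
    show B (N' g + K' g) f = B g (N f + K f)
    rw [map_add, map_add, _root_.add_apply, hB (K' g) f, hKK K K' hK hK' f g, ← hB g (K f)]
    congr 1
    rw [hB, hB]
    refine integral_congr_ae ?_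
    filter_upwards [hN' g, hN f] with x h1 h2
    rw [h1, h2]
    ring
  -- a point all whose neighbourhoods meet the essential range in positive area
  have hpt : ∀ W : Set ℂ, IsOpen W → volume (essR μ φ ∩ W) ≠ 0 → ∃ d ∈ W, ∀ ρ : ℝ, 0 < ρ →
      0 < volume (essR μ φ ∩ ball d ρ) := by
    intro W hWo hWp
    obtain ⟨d, hd, h1⟩ := exists_mem_forall_mem_nhdsWithin_pos_measure hWp
    refine ⟨d, hd.2, fun ρ hρ => ?_⟩
    refine lt_of_lt_of_le (h1 ((essR μ φ ∩ W) ∩ ball d ρ)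
      (inter_mem_nhdsWithin _ (ball_mem_nhds d hρ))) (measure_mono ?_)
    exact fun z hz => ⟨hz.1.1, hz.2⟩
  refine ⟨N + K, hT, ?_, ?_⟩
  · -- two points
    obtain ⟨d₁, hd₁, hp₁⟩ := hpt U' hUo' hpos'
    have h2 : volume (essR μ φ ∩ (U' \ {d₁})) ≠ 0 := by
      intro h
      have h3 : essR μ φ ∩ U' ⊆ (essR μ φ ∩ (U' \ {d₁})) ∪ {d₁} := by
        intro z hz
        by_cases hzd : z = d₁
        · exact Or.inr hzd
        · exact Or.inl ⟨hz.1, hz.2, hzd⟩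
      exact hpos' (measure_mono_null h3 (measure_union_null h (measure_singleton d₁)))
    obtain ⟨d₂, hd₂, hp₂⟩ := hpt (U' \ {d₁}) (hUo'.sdiff isClosed_singleton) h2
    have hne : d₂ ≠ d₁ := hd₂.2
    have hδ : 0 < ‖d₁ - d₂‖ := norm_pos_iff.2 (sub_ne_zero.2 hne.symm)
    obtain ⟨ρ₁, hρ₁, hs₁⟩ := Metric.nhds_basis_closedBall.mem_iff.1 (hUo'.mem_nhds hd₁)
    obtain ⟨ρ₂, hρ₂, hs₂⟩ := Metric.nhds_basis_closedBall.mem_iff.1 (hUo'.mem_nhds hd₂.1)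
    obtain ⟨ρ, hρdef⟩ : ∃ ρ, ρ = min (min ρ₁ ρ₂) (‖d₁ - d₂‖ / 5) := ⟨_, rfl⟩
    have hρ : 0 < ρ := by rw [hρdef]; exact lt_min (lt_min hρ₁ hρ₂) (by positivity)
    have hρa : ρ ≤ ρ₁ := by rw [hρdef]; exact (min_le_left _ _).trans (min_le_left _ _)
    have hρb : ρ ≤ ρ₂ := by rw [hρdef]; exact (min_le_left _ _).trans (min_le_right _ _)
    have hρc : ρ ≤ ‖d₁ - d₂‖ / 5 := by rw [hρdef]; exact min_le_right _ _
    obtain ⟨c₁, r₁, hr₁, hrρ₁, hsub₁, X, D₁, x1, x2, x3⟩ :=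
      loc1 hpq hp hq hφ hφb hUo' hUn' hUR' hγ hk hW1 hN hK hρ
        ((closedBall_subset_closedBall hρa).trans hs₁) (hp₁ ρ hρ)
    obtain ⟨c₂, r₂, hr₂, hrρ₂, hsub₂, Y, D₂, y1, y2, y3⟩ :=
      loc1 hpq.symm hq hp hφ hφb hUo' hUn' hUR' hγ' hk' hW1' hN' hK' hρ
        ((closedBall_subset_closedBall hρb).trans hs₂) (hp₂ ρ hρ)
    have e1 : ‖c₁ - d₁‖ ≤ ρ := mem_closedBall_iff_norm.1 (hsub₁ (mem_closedBall_self hr₁.le))
    have e2 : ‖c₂ - d₂‖ ≤ ρ := mem_closedBall_iff_norm.1 (hsub₂ (mem_closedBall_self hr₂.le))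
    have e3 : ‖d₁ - d₂‖ ≤ ‖c₁ - c₂‖ + ‖c₁ - d₁‖ + ‖c₂ - d₂‖ := by
      have h : d₁ - d₂ = (c₁ - c₂) - (c₁ - d₁) + (c₂ - d₂) := by ring
      calc ‖d₁ - d₂‖ = ‖(c₁ - c₂) - (c₁ - d₁) + (c₂ - d₂)‖ := by rw [← h]
        _ ≤ ‖(c₁ - c₂) - (c₁ - d₁)‖ + ‖c₂ - d₂‖ := norm_add_le _ _
        _ ≤ _ := by gcongr; exact norm_sub_le _ _
    exact K1H48.VM.ann B (N + K) (N' + K') hB0 hBT hr₁ hr₂ (by linarith) x1 x2 y1 y2 x3 y3
  · intro V hV hVU hVp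
    have h1 : volume (essR μ φ ∩ (V ∩ U')) ≠ 0 := by
      have h2 : essR μ φ ∩ (V ∩ U') = V ∩ essR μ φ := by
        ext z
        constructor
        · rintro ⟨h1, h2, -⟩
          exact ⟨h2, h1⟩
        · rintro ⟨h1, h2⟩
          exact ⟨h2, h1, hVU h1, hess h2⟩
      rw [h2]
      exact hVp.ne'
    obtain ⟨d, hd, hdp⟩ := hpt (V ∩ U') (hV.inter hUo') h1
    obtain ⟨ρ, hρ, hs⟩ := Metric.nhds_basis_closedBall.mem_iff.1 ((hV.inter hUo').mem_nhds hd)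
    obtain ⟨c, r, hr, -, hsub, hseq⟩ :=
      loc1 hpq hp hq hφ hφb hUo' hUn' hUR' hγ hk hW1 hN hK hρ
        (hs.trans inter_subset_right) (hdp ρ hρ)
    obtain ⟨x, C, hx, hxn⟩ := hseq.pow
    exact ⟨x, c, r, C, hx, hr, hsub.trans (hs.trans inter_subset_left), hxn⟩

end Pool.Agent.K1H27.PL
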