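import Pool.Agent.K1H27.PL.Stm

/-!
# Project PL, second part: no condition on the spectrum of `M_φ`

Statements of the independent parts.
-/

set_option autoImplicit false

namespace Pool.Agent.K1H27.PL

open MeasureTheory Set Metric Filter Topology
open scoped ENNReal NNReal
open Pool.Agent.K1H27.VM (HasHyp IsInt IsMul HT)

/-- CAC: an inequality of Caccioppoli type -/
def S_CAC : Prop := ∀ (f : ℂ → ℂ) (W : Set ℂ), IsOpen W → ContinuousOn f W →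
  DifferentiableOn ℂ f {z | z ∈ W ∧ f z ≠ 0} → ∀ (c : ℂ) (r : ℝ), closedBall c r ⊆ W →
  ∫⁻ z in {z | z ∈ closedBall c r ∧ f z ≠ 0}, ‖deriv f z‖ₑ ^ 2 ≠ ⊤

/-- RADO: Radó's theorem -/
def S_RADO : Prop := ∀ (f : ℂ → ℂ) (W : Set ℂ), IsOpen W → ContinuousOn f W →
  DifferentiableOn ℂ f {z | z ∈ W ∧ f z ≠ 0} → DifferentiableOn ℂ f W

/-- LOCD: a local determinant -/
def S_LOCD : Prop := ∀ (E : Type) [NormedAddCommGroup E] [NormedSpace ℂ E] [CompleteSpace E]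
  (W₀ σ : Set ℂ) (z₀ : ℂ) (H a b : ℂ → (E →L[ℂ] E)) (T A F B : E →L[ℂ] E),
  IsOpen W₀ → z₀ ∈ W₀ → ContinuousOn H W₀ → ContinuousOn a W₀ → ContinuousOn b W₀ →
  FiniteDimensional ℂ (LinearMap.range (F : E →ₗ[ℂ] E)) → ‖H z₀ - a z₀ * F * b z₀‖ < 1 →
  (∀ z ∈ W₀, z ∉ σ → ∃ α β : E →L[ℂ] E, IsUnit α ∧ IsUnit β ∧ a z = α * A ∧ b z = B * β ∧
    α * (z • (1 : E →L[ℂ] E) - T) * β = 1 - (H z - a z * F * b z)) →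
  ∃ (W : Set ℂ) (d : ℂ → ℂ), IsOpen W ∧ z₀ ∈ W ∧ W ⊆ W₀ ∧ ContinuousOn d W ∧
    DifferentiableOn ℂ d (W \ σ) ∧ ∀ z ∈ W, (d z = 0 ↔ ¬ IsUnit (1 - H z))

/-- LD: the local determinant of `H z = α_z K β_z` -/
def S_LD : Prop := ∀ (S : Type) [MeasurableSpace S] (μ : Measure S) [SigmaFinite μ]
  (p q : ℝ≥0∞) [Fact (1 ≤ p)] [Fact (1 ≤ q)], p.HolderConjugate q → p ≠ ∞ → q ≠ ∞ →
  ∀ φ : S → ℂ, Measurable φ → (∃ M : ℝ, ∀ s, ‖φ s‖ ≤ M) → ∀ (U : Set ℂ) (R γ : ℝ) (D : ℝ≥0)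
  (k : S → S → ℂ), IsOpen U → U ⊆ ball (0:ℂ) R → 1 < γ →
  Measurable (Function.uncurry k) → WW μ p q φ γ U k D →
  ∀ H : ℂ → (Lp ℂ p μ →L[ℂ] Lp ℂ p μ), (∀ z ∈ U, IsInt (kz φ p.toReal k z) (H z)) →
  ContinuousOn H U →
  (∀ z ∈ U, ∀ ε : ℝ, 0 < ε → ∃ F : Lp ℂ p μ →L[ℂ] Lp ℂ p μ,
      FiniteDimensional ℂ (LinearMap.range (F : Lp ℂ p μ →ₗ[ℂ] Lp ℂ p μ)) ∧ ‖H z - F‖ < ε) →
  ∀ N K : Lp ℂ p μ →L[ℂ] Lp ℂ p μ, IsMul φ N → IsInt k K → ∀ z₀ ∈ U,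
  ∃ (W : Set ℂ) (d : ℂ → ℂ), IsOpen W ∧ z₀ ∈ W ∧ W ⊆ U ∧ ContinuousOn d W ∧
    DifferentiableOn ℂ d (W \ essR μ φ) ∧ ∀ z ∈ W, (d z = 0 ↔ ¬ IsUnit (1 - H z))

/-- EIG: eigenvectors off the essential range -/
def S_EIG : Prop := ∀ (S : Type) [MeasurableSpace S] (μ : Measure S) [SigmaFinite μ]
  (p : ℝ≥0∞) [Fact (1 ≤ p)], 1 < p → p ≠ ∞ →
  ∀ φ : S → ℂ, Measurable φ → (∃ M : ℝ, ∀ s, ‖φ s‖ ≤ M) → ∀ (k : S → S → ℂ) (z : ℂ),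
  z ∉ essR μ φ → ∀ H N K : Lp ℂ p μ →L[ℂ] Lp ℂ p μ, IsInt (kz φ p.toReal k z) H →
  (∀ ε : ℝ, 0 < ε → ∃ F : Lp ℂ p μ →L[ℂ] Lp ℂ p μ,
      FiniteDimensional ℂ (LinearMap.range (F : Lp ℂ p μ →ₗ[ℂ] Lp ℂ p μ)) ∧ ‖H - F‖ < ε) →
  IsMul φ N → IsInt k K → ¬ IsUnit (1 - H) →
  ∃ f : Lp ℂ p μ, f ≠ 0 ∧ (N + K) f = z • f

/-- ATM: eigenvectors at atoms -/
def S_ATM : Prop := ∀ (S : Type) [MeasurableSpace S] (μ : Measure S) [SigmaFinite μ]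
  (p q : ℝ≥0∞) [Fact (1 ≤ p)] [Fact (1 ≤ q)], p.HolderConjugate q → p ≠ ∞ → q ≠ ∞ →
  ∀ φ : S → ℂ, Measurable φ → (∃ M : ℝ, ∀ s, ‖φ s‖ ≤ M) → ∀ (U : Set ℂ) (γ : ℝ) (D : ℝ≥0)
  (k : S → S → ℂ), 1 < γ → Measurable (Function.uncurry k) → WW μ p q φ γ U k D →
  ∀ N K : Lp ℂ p μ →L[ℂ] Lp ℂ p μ, IsMul φ N → IsInt k K → ∀ z ∈ U, μ {s | φ s = z} ≠ 0 →
  ∃ f : Lp ℂ p μ, f ≠ 0 ∧ (N + K) f = z • f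

/-- PRF: properties of the essential range -/
def S_PRF : Prop := ∀ (S : Type) [MeasurableSpace S] (μ : Measure S) (φ : S → ℂ),
  (∀ U : Set ℂ, IsOpen U → μ (φ ⁻¹' U) ≠ 0 → (U ∩ essR μ φ).Nonempty) ∧
  (∀ c ∈ essR μ φ, μ {s | φ s = c} = 0 → ∀ ε : ℝ, 0 < ε →
    ∃ c' ∈ essR μ φ, c' ≠ c ∧ ‖c' - c‖ < ε) ∧ IsClosed (essR μ φ)

/-- COR2: kernels which are regular if `φ` has dimension `e > 1` -/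
def S_COR2 : Prop := ∀ (S : Type) [MeasurableSpace S] (μ : Measure S) [SigmaFinite μ]
  (φ : S → ℂ), Measurable φ → (∃ M : ℝ, ∀ s, ‖φ s‖ ≤ M) → ∀ (C : ℝ≥0) (e : ℝ), 1 < e → e ≤ 2 →
  (∀ (z : ℂ) (r : ℝ), 0 < r → μ {s | ‖φ s - z‖ < r} ≤ C * ENNReal.ofReal (r ^ e)) →
  (∀ (p q : ℝ≥0∞), p.HolderConjugate q → p ≠ ∞ → q ≠ ∞ →
    ∀ (k : S → S → ℂ) (h : S → S → ℝ) (r : ℝ), Measurable (Function.uncurry k) →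
    Measurable (Function.uncurry h) → max p.toReal q.toReal * (e / (e - 1)) < r →
    ∫⁻ s, ∫⁻ t, ‖h s t‖ₑ ^ r ∂μ ∂μ ≠ ⊤ → (∀ s t, ‖k s t‖ ≤ |h s t|) →
    ∃ γ : ℝ, 1 < γ ∧ ∃ D : ℝ≥0, WW μ p q φ γ univ k D) ∧
  (∀ (k : S → S → ℂ) (h : S → S → ℝ) (r θ c : ℝ), Measurable (Function.uncurry k) →
    Measurable (Function.uncurry h) → 2 * (e / (e - 1)) < r → 0 ≤ θ → θ < e - 1 →
    ∫⁻ s, ∫⁻ t, ‖h s t‖ₑ ^ r ∂μ ∂μ ≠ ⊤ →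
    (∀ s t, φ s ≠ φ t → ‖k s t‖ ≤ |h s t| + c * ‖φ s - φ t‖ ^ (-θ)) →
    ∃ γ : ℝ, 1 < γ ∧ ∃ D : ℝ≥0, WW μ 2 2 φ γ univ k D)

end Pool.Agent.K1H27.PL
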