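import Pool.Agent.K1H27.PL.Fin
import Pool.Agent.K1H27.PL.Stm2

/-!
# Project PL: the theorem without condition on the spectrum
-/

set_option autoImplicit false

namespace Pool.Agent.K1H27.PL

open MeasureTheory Set Metric Filter Topology
open scoped ENNReal NNReal
open Pool.Agent.K1H27.VM (HasHyp IsInt IsMul HT)

variable {S : Type} [MeasurableSpace S] {μ : Measure S}

/-- regular points of the essential range -/
theorem regPts [SigmaFinite μ] (hRADO : S_RADO) (hLD : S_LD) (hEIG : S_EIG) (hATM : S_ATM)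
    (hPRF : S_PRF) {p q : ℝ≥0∞} [Fact (1 ≤ p)] [Fact (1 ≤ q)]
    (hpq : p.HolderConjugate q) (hp : p ≠ ∞) (hq : q ≠ ∞) {φ : S → ℂ} (hφ : Measurable φ)
    (hφb : ∃ M : ℝ, ∀ s, ‖φ s‖ ≤ M) {U : Set ℂ} {R γ : ℝ} {D : ℝ≥0} {k : S → S → ℂ}
    (hU : IsOpen U) (hUR : U ⊆ ball (0:ℂ) R) (hγ : 1 < γ)
    (hk : Measurable (Function.uncurry k)) (hW : WW μ p q φ γ U k D)
    {N K : Lp ℂ p μ →L[ℂ] Lp ℂ p μ} (hN : IsMul φ N) (hK : IsInt k K)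
    {H : ℂ → (Lp ℂ p μ →L[ℂ] Lp ℂ p μ)} (hH : ∀ z ∈ U, IsInt (kz φ p.toReal k z) (H z))
    (hHc : ContinuousOn H U)
    (hap : ∀ z ∈ U, ∀ ε : ℝ, 0 < ε → ∃ F : Lp ℂ p μ →L[ℂ] Lp ℂ p μ,
      FiniteDimensional ℂ (LinearMap.range (F : Lp ℂ p μ →ₗ[ℂ] Lp ℂ p μ)) ∧ ‖H z - F‖ < ε)
    (hne : (U ∩ essR μ φ).Nonempty) (hvol : volume (U ∩ essR μ φ) = 0)
    (heig : ∀ z ∈ U, ∀ f, (N + K) f = z • f → f = 0) (b : ℂ) :
    ∃ c ∈ U ∩ essR μ φ, c ≠ b ∧ IsUnit (1 - H c) := by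
  have hPQ : p.toReal.HolderConjugate q.toReal :=
    ENNReal.HolderConjugate.toReal_of_ne_top (p := p) (q := q) hp hq
  have hp1 : 1 < p := by
    have h1 : (1 : ℝ≥0∞) ≤ p := Fact.out
    refine lt_of_le_of_ne h1 fun h => ?_
    have h2 := hPQ.lt
    rw [← h] at h2
    simp at h2
  obtain ⟨hP1, hP2, -⟩ := hPRF S μ φ
  by_contra hcon
  push Not at hcon
  have hat : ∀ z ∈ U, μ {s | φ s = z} = 0 := by
    intro z hz
    by_contra h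
    obtain ⟨f, hf, hf2⟩ := hATM S μ p q hpq hp hq φ hφ hφb U γ D k hγ hk hW N K hN hK z hz h
    exact hf (heig z hz f hf2)
  -- a point of the essential range which is different from `b`
  obtain ⟨z₀, hz₀, hz₀b⟩ : ∃ z₀ ∈ U ∩ essR μ φ, z₀ ≠ b := by
    obtain ⟨z₁, hz₁⟩ := hne
    by_cases h : z₁ = b
    · obtain ⟨ε, hε, hsub⟩ := Metric.isOpen_iff.1 hU z₁ hz₁.1
      obtain ⟨c, hc, hc1, hc2⟩ := hP2 z₁ hz₁.2 (hat z₁ hz₁.1) ε hε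
      exact ⟨c, ⟨hsub (mem_ball_iff_norm.2 hc2), hc⟩, fun h2 => hc1 (h2.trans h.symm)⟩
    · exact ⟨z₁, hz₁, h⟩
  obtain ⟨W, d, hWo, hzW, hWU, hdc, hdd, hdz⟩ := hLD S μ p q hpq hp hq φ hφ hφb U R γ D k hU
    hUR hγ hk hW H hH hHc hap N K hN hK z₀ hz₀.1
  have hopen : IsOpen (W ∩ {b}ᶜ) := hWo.inter isOpen_compl_singleton
  obtain ⟨r, hr, hsub⟩ := Metric.isOpen_iff.1 hopen z₀ ⟨hzW, hz₀b⟩
  have hzero : ∀ z ∈ ball z₀ r, (d z = 0 ↔ z ∈ essR μ φ) := by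
    intro z hz
    have hzW' : z ∈ W := (hsub hz).1
    have hzb : z ≠ b := (hsub hz).2
    rw [hdz z hzW']
    constructor
    · intro h
      by_contra hz2
      obtain ⟨f, hf, hf2⟩ := hEIG S μ p hp1 hp φ hφ hφb k z hz2 (H z) N K (hH z (hWU hzW'))
        (hap z (hWU hzW')) hN hK h
      exact hf (heig z (hWU hzW') f hf2)
    · intro h
      exact hcon z ⟨hWU hzW', h⟩ hzb
  have hdiff : DifferentiableOn ℂ d (ball z₀ r) := by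
    refine hRADO d (ball z₀ r) isOpen_ball (hdc.mono fun z hz => (hsub hz).1) ?_
    refine hdd.mono ?_
    rintro z ⟨hz1, hz2⟩
    exact ⟨(hsub hz1).1, fun h => hz2 ((hzero z hz1).2 h)⟩
  have han : AnalyticOnNhd ℂ d (ball z₀ r) := hdiff.analyticOnNhd isOpen_ball
  have hfreq : ∃ᶠ z in 𝓝[≠] z₀, d z = 0 := by
    rw [Filter.frequently_iff]
    intro V hV
    obtain ⟨ε, hε, hVs⟩ := Metric.mem_nhdsWithin_iff.1 hV
    obtain ⟨c, hc, hc1, hc2⟩ := hP2 z₀ hz₀.2 (hat z₀ hz₀.1) (min ε r) (lt_min hε hr)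
    refine ⟨c, hVs ⟨mem_ball_iff_norm.2 (hc2.trans_le (min_le_left _ _)), hc1⟩, ?_⟩
    exact (hzero c (mem_ball_iff_norm.2 (hc2.trans_le (min_le_right _ _)))).2 hc
  have h0 := han.eqOn_zero_of_preconnected_of_frequently_eq_zero
    (convex_ball z₀ r).isPreconnected (mem_ball_self hr) hfreq
  have hsub2 : ball z₀ r ⊆ U ∩ essR μ φ := fun z hz =>
    ⟨hWU (hsub hz).1, (hzero z hz).1 (h0 hz)⟩
  have h1 := measure_mono_null hsub2 hvol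
  exact (measure_ball_pos volume z₀ hr).ne' h1

/-- vectors with small local spectra near the essential range -/
theorem loc2 [SigmaFinite μ] (hRADO : S_RADO) (hLD : S_LD) (hEIG : S_EIG) (hATM : S_ATM)
    (hPRF : S_PRF) {p q : ℝ≥0∞} [Fact (1 ≤ p)] [Fact (1 ≤ q)]
    (hpq : p.HolderConjugate q) (hp : p ≠ ∞) (hq : q ≠ ∞) {φ : S → ℂ} (hφ : Measurable φ)
    (hφb : ∃ M : ℝ, ∀ s, ‖φ s‖ ≤ M) {U : Set ℂ} {R γ : ℝ} {D : ℝ≥0} {k : S → S → ℂ}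
    (hU : IsOpen U) (hUR : U ⊆ ball (0:ℂ) R) (hγ : 1 < γ)
    (hk : Measurable (Function.uncurry k)) (hW : WW μ p q φ γ U k D)
    {N K : Lp ℂ p μ →L[ℂ] Lp ℂ p μ} (hN : IsMul φ N) (hK : IsInt k K)
    (hne : (U ∩ essR μ φ).Nonempty) (hvol : volume (U ∩ essR μ φ) = 0)
    (heig : ∀ z ∈ U, ∀ f, (N + K) f = z • f → f = 0) (b : ℂ) :
    ∃ c ∈ U ∩ essR μ φ, c ≠ b ∧ ∀ r₀ : ℝ, 0 < r₀ → ∃ ρ : ℝ, 0 < ρ ∧ ρ ≤ r₀ ∧
      Seq (N + K) c ρ := by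
  have hUn : U.Nonempty := hne.mono inter_subset_left
  obtain ⟨H, Mn, Ma, Mb, Mc, r, C, hF, hH, hap⟩ := exFam Pool.Agent.K1H59.PL.t_MUL
    Pool.Agent.K1H59.PL.t_CTS Pool.Agent.K1H39.PL.t_SCHA Pool.Agent.K1H39.PL.t_SCHB
    Pool.Agent.K1H1.PL.t_RAT t_KER' hpq hp hq hφ hφb hU hUn hUR hγ hk hW hN hK
  have hHT : HT μ p q k ≠ ∞ :=
    (t_KER' S μ p q hpq hp hq φ hφ hφb U R γ D k hU hUn hUR hγ hk hW).1
  obtain ⟨c, hc, hcb, hcu⟩ := regPts hRADO hLD hEIG hATM hPRF hpq hp hq hφ hφb hU hUR hγ hk hW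
    hN hK hH hF.cH hap hne hvol heig b
  have hat : μ {s | φ s = c} = 0 := by
    by_contra h
    obtain ⟨f, hf, hf2⟩ := hATM S μ p q hpq hp hq φ hφ hφb U γ D k hγ hk hW N K hN hK c hc.1 h
    exact hf (heig c hc.1 f hf2)
  refine ⟨c, hc, hcb, fun r₀ hr₀ => hF.sideA Pool.Agent.K1H1.PL.t_ROT hc.1 hcu ?_ hr₀⟩
  exact Pool.Agent.K1H96.PL.t_SPC S μ p q hpq hp hq φ hφ hφb k hk hHT N K hN hK c hc.2 hat

/-- the theorem -/
theorem main2 [SigmaFinite μ] (hRADO : S_RADO) (hLD : S_LD) (hEIG : S_EIG) (hATM : S_ATM)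
    (hPRF : S_PRF) {p q : ℝ≥0∞} [Fact (1 ≤ p)] (hpq : p.HolderConjugate q)
    (hp : p ≠ ∞) (hq : q ≠ ∞) {φ : S → ℂ} (hφ : Measurable φ)
    (hφb : ∃ M : ℝ, ∀ s, ‖φ s‖ ≤ M) {U : Set ℂ} {γ γ' : ℝ} {D D' : ℝ≥0} {k : S → S → ℂ}
    (hU : IsOpen U) (hγ : 1 < γ) (hγ' : 1 < γ') (hk : Measurable (Function.uncurry k))
    (hW : WW μ p q φ γ U k D) (hW' : WW μ q p φ γ' U (fun s t => k t s) D')
    (hpos : μ (φ ⁻¹' U) ≠ 0) :
    ∃ T : Lp ℂ p μ →L[ℂ] Lp ℂ p μ,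
      (∀ g : Lp ℂ p μ, ⇑(T g) =ᵐ[μ] fun s => φ s * g s + ∫ t, k s t * g t ∂μ) ∧
      ((∃ c : ℂ, T = c • (1 : Lp ℂ p μ →L[ℂ] Lp ℂ p μ)) ∨ HasHyp T) ∧
      ∀ V : Set ℂ, IsOpen V → V ⊆ U → μ (φ ⁻¹' V) ≠ 0 →
        ∃ (x : Lp ℂ p μ) (c : ℂ) (ρ C : ℝ), x ≠ 0 ∧ 0 < ρ ∧ closedBall c ρ ⊆ V ∧
          ∀ n : ℕ, ‖((T - c • (1 : Lp ℂ p μ →L[ℂ] Lp ℂ p μ)) ^ n) x‖ ≤ C * ρ ^ n := by
  have : Fact (1 ≤ q) := ⟨hpq.symm.one_le⟩
  obtain ⟨M, hM⟩ := hφb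
  have hφb : ∃ M : ℝ, ∀ s, ‖φ s‖ ≤ M := ⟨M, hM⟩
  obtain ⟨hP1, hP2, -⟩ := hPRF S μ φ
  have hess := essR_sub (μ := μ) hM
  have hk' : Measurable (Function.uncurry fun s t => k t s) := hk.comp measurable_swap
  -- restriction to a bounded set
  have hres : ∀ V : Set ℂ, V ∩ essR μ φ = (V ∩ ball (0:ℂ) (M + 1)) ∩ essR μ φ := by
    intro V
    ext z
    exact ⟨fun h => ⟨⟨h.1, hess h.2⟩, h.2⟩, fun h => ⟨h.1.1, h.2⟩⟩
  have hneU := hP1 U hU hpos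
  set U' : Set ℂ := U ∩ ball (0:ℂ) (M + 1) with hU'
  have hUo' : IsOpen U' := hU.inter isOpen_ball
  have hUR' : U' ⊆ ball (0:ℂ) (M + 1) := inter_subset_right
  have hW1 := hW.mono (U' := U') inter_subset_left
  have hW1' := hW'.mono (U' := U') inter_subset_left
  have hne' : (U' ∩ essR μ φ).Nonempty := by rw [← hres]; exact hneU
  have hUn' : U'.Nonempty := hne'.mono inter_subset_left
  have hHT : HT μ p q k ≠ ∞ :=
    (t_KER' S μ p q hpq hp hq φ hφ hφb U' (M + 1) γ D k hUo' hUn' hUR' hγ hk hW1).1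
  have hHT' : HT μ q p (fun s t => k t s) ≠ ∞ :=
    (t_KER' S μ q p hpq.symm hq hp φ hφ hφb U' (M + 1) γ' D' _ hUo' hUn' hUR' hγ' hk' hW1').1
  obtain ⟨⟨K, hK⟩, hKK⟩ := Pool.Agent.K1H28.VM.t_OP S μ p q hpq hp hq k hk hHT
  obtain ⟨⟨K', hK'⟩, -⟩ := Pool.Agent.K1H28.VM.t_OP S μ q p hpq.symm hq hp
    (fun s t => k t s) hk' hHT'
  obtain ⟨⟨B, hB, hB0, hBn⟩, hmul⟩ := Pool.Agent.K1H28.VM.t_PAIR S μ p q hpq hp hq
  obtain ⟨N, hN⟩ := hmul φ hφ hφb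
  obtain ⟨-, hmul'⟩ := Pool.Agent.K1H28.VM.t_PAIR S μ q p hpq.symm hq hp
  obtain ⟨N', hN'⟩ := hmul' φ hφ hφb
  have hT : ∀ g : Lp ℂ p μ, ⇑((N + K) g) =ᵐ[μ] fun s => φ s * g s + ∫ t, k s t * g t ∂μ := by
    intro g
    filter_upwards [Lp.coeFn_add (N g) (K g), hN g, hK g] with x h1 h2 h3
    show (N g + K g : Lp ℂ p μ) x = _
    rw [h1, Pi.add_apply, h2, h3]
  have hBT : ∀ g f, B ((N' + K') g) f = B g ((N + K) f) := by
    intro g f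
    show B (N' g + K' g) f = B g (N f + K f)
    rw [map_add, map_add, _root_.add_apply, hB (K' g) f, hKK K K' hK hK' f g, ← hB g (K f)]
    congr 1
    rw [hB, hB]
    refine integral_congr_ae ?_
    filter_upwards [hN' g, hN f] with x h1 h2
    rw [h1, h2]
    ring
  -- positive area
  have harea : ∀ V : Set ℂ, IsOpen V → V ⊆ U → volume (V ∩ essR μ φ) ≠ 0 →
      ∃ (x : Lp ℂ p μ) (c : ℂ) (ρ C : ℝ), x ≠ 0 ∧ 0 < ρ ∧ closedBall c ρ ⊆ V ∧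
        ∀ n : ℕ, ‖((N + K - c • (1 : Lp ℂ p μ →L[ℂ] Lp ℂ p μ)) ^ n) x‖ ≤ C * ρ ^ n := by
    intro V hV hVU hVp
    obtain ⟨T₀, hT₀, -, h3⟩ := main hpq hp hq hφ hφb hV hγ hγ' hk (hW.mono hVU) (hW'.mono hVU)
      (pos_iff_ne_zero.2 hVp)
    have hTT : T₀ = N + K := by
      refine ContinuousLinearMap.ext fun g => ?_
      apply Lp.ext
      filter_upwards [hT₀ g, hT g] with s h1 h2
      rw [h1, h2]
    rw [hTT] at h3
    exact h3 V hV Subset.rfl (pos_iff_ne_zero.2 hVp)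
  refine ⟨N + K, hT, ?_, ?_⟩
  · by_cases hsc : ∃ c : ℂ, N + K = c • (1 : Lp ℂ p μ →L[ℂ] Lp ℂ p μ)
    · exact Or.inl hsc
    right
    push Not at hsc
    by_cases he : ∀ z : ℂ, ∀ f, (N + K) f = z • f → f = 0
    swap
    · push Not at he
      obtain ⟨z, f, h1, h2⟩ := he
      exact K1H48.VM.hyp_of_eigen h2 h1 hsc
    by_cases he' : ∀ z : ℂ, ∀ g, (N' + K') g = z • g → g = 0
    swap
    · push Not at he'
      obtain ⟨z, g, h1, h2⟩ := he'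
      refine K1H48.VM.hyp_of_range (z := z) (fun hcl => ?_) hsc
      apply h2
      apply hB0
      refine ContinuousLinearMap.ext fun f => ?_
      have h3 : f ∈ closure (range fun y => z • y - (N + K) y) := by rw [hcl]; trivial
      have h4 : range (fun y => z • y - (N + K) y) ⊆ {f | B g f = 0} := by
        rintro _ ⟨y, rfl⟩
        show B g (z • y - (N + K) y) = 0
        rw [map_sub, ← hBT, h1, map_smul, map_smul, smul_apply, sub_self]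
      have h5 : IsClosed {f | B g f = 0} := isClosed_eq (B g).continuous continuous_const
      exact closure_minimal h4 h5 h3
    by_cases hvol : volume (U ∩ essR μ φ) = 0
    swap
    · obtain ⟨T₀, hT₀, h2, -⟩ := main hpq hp hq hφ hφb hU hγ hγ' hk hW hW' (pos_iff_ne_zero.2 hvol)
      have hTT : T₀ = N + K := by
        refine ContinuousLinearMap.ext fun g => ?_
        apply Lp.ext
        filter_upwards [hT₀ g, hT g] with s h1 h2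
        rw [h1, h2]
      rw [← hTT]
      exact h2
    have hvol' : volume (U' ∩ essR μ φ) = 0 := by rw [← hres]; exact hvol
    obtain ⟨c₁, hc₁, -, hs₁⟩ := loc2 hRADO hLD hEIG hATM hPRF hpq hp hq hφ hφb hUo' hUR' hγ hk
      hW1 hN hK hne' hvol' (fun z _ => he z) 0
    obtain ⟨c₂, hc₂, hne, hs₂⟩ := loc2 hRADO hLD hEIG hATM hPRF hpq.symm hq hp hφ hφb hUo' hUR'
      hγ' hk' hW1' hN' hK' hne' hvol' (fun z _ => he' z) c₁
    have hδ : 0 < ‖c₁ - c₂‖ := norm_pos_iff.2 (sub_ne_zero.2 hne.symm)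
    obtain ⟨r₁, hr₁, hr₁', X, D₁, x1, x2, x3⟩ := hs₁ (‖c₁ - c₂‖ / 3) (by positivity)
    obtain ⟨r₂, hr₂, hr₂', Y, D₂, y1, y2, y3⟩ := hs₂ (‖c₁ - c₂‖ / 3) (by positivity)
    exact K1H48.VM.ann B (N + K) (N' + K') hB0 hBT hr₁ hr₂ (by linarith) x1 x2 y1 y2 x3 y3
  · intro V hV hVU hVp
    have hneV := hP1 V hV hVp
    by_cases hvolV : volume (V ∩ essR μ φ) = 0
    swap
    · exact harea V hV hVU hvolV
    set V' : Set ℂ := V ∩ ball (0:ℂ) (M + 1) with hV'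
    have hVo' : IsOpen V' := hV.inter isOpen_ball
    have hVV : V' ⊆ V := inter_subset_left
    have hneV' : (V' ∩ essR μ φ).Nonempty := by rw [← hres]; exact hneV
    have hvolV' : volume (V' ∩ essR μ φ) = 0 := by rw [← hres]; exact hvolV
    have hfin : ∀ c ∈ V', (∀ r₀ : ℝ, 0 < r₀ → ∃ ρ : ℝ, 0 < ρ ∧ ρ ≤ r₀ ∧ Seq (N + K) c ρ) →
        ∃ (x : Lp ℂ p μ) (c : ℂ) (ρ C : ℝ), x ≠ 0 ∧ 0 < ρ ∧ closedBall c ρ ⊆ V ∧
        ∀ n : ℕ, ‖((N + K - c • (1 : Lp ℂ p μ →L[ℂ] Lp ℂ p μ)) ^ n) x‖ ≤ C * ρ ^ n := by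
      intro c hc hs
      obtain ⟨r₀, hr₀, hsub⟩ := Metric.nhds_basis_closedBall.mem_iff.1 (hVo'.mem_nhds hc)
      obtain ⟨ρ, h1, h2, h3⟩ := hs r₀ hr₀
      obtain ⟨x, C, hx, hxn⟩ := h3.pow
      exact ⟨x, c, ρ, C, hx, h1,
        ((closedBall_subset_closedBall h2).trans hsub).trans hVV, hxn⟩
    by_cases he : ∀ z ∈ V', ∀ f, (N + K) f = z • f → f = 0
    · obtain ⟨c, hc, -, hs⟩ := loc2 hRADO hLD hEIG hATM hPRF hpq hp hq hφ hφb hVo'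
        inter_subset_right hγ hk (hW.mono (hVV.trans hVU)) hN hK hneV' hvolV' he 0
      exact hfin c hc.1 hs
    · push Not at he
      obtain ⟨z, hz, f, h1, h2⟩ := he
      exact hfin z hz fun r₀ hr₀ => ⟨r₀, hr₀, le_rfl, seq_of_eigen h2 h1 hr₀⟩

end Pool.Agent.K1H27.PL
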