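import Pool.Agent.K1H27.PL.Side
import Pool.Agent.K1H48.VM.ONE

/-!
# Project PL: the family of operators for `M_φ + K`
-/

set_option autoImplicit false

namespace Pool.Agent.K1H27.PL

open MeasureTheory Set Metric Filter Topology
open scoped ENNReal NNReal
open Pool.Agent.K1H27.VM (HasHyp IsInt IsMul HT)
open K1H48.VM (im_norm_le im_unique im_mul im_add im_sub im_const im_congr)

variable {S : Type} [MeasurableSpace S] {μ : Measure S}

/-- the numbers `ε_j` -/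
noncomputable def ej (j : ℕ) : ℝ := 1 / ((j : ℝ) + 1)

theorem ej_pos (j : ℕ) : 0 < ej j := by unfold ej; positivity

theorem ej_anti {i j : ℕ} (h : j ≤ i) : ej i ≤ ej j := by
  unfold ej
  have : (j : ℝ) ≤ i := by exact_mod_cast h
  gcongr

theorem ej_le (j : ℕ) : ej j ≤ 1 := by
  have h := ej_anti (Nat.zero_le j)
  have h0 : ej 0 = 1 := by simp [ej]
  rwa [h0] at h

theorem ej_tend : Tendsto ej atTop (𝓝 0) := tendsto_one_div_add_atTop_nhds_zero_nat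

theorem ej_rpow {a : ℝ} (ha : 0 < a) : Tendsto (fun j => ej j ^ a) atTop (𝓝 0) := by
  have h := ej_tend.rpow_const (p := a) (Or.inr ha.le)
  rwa [Real.zero_rpow ha.ne'] at h

/-- the rates -/
noncomputable def rj (P Q CK κ : ℝ) (C : ℝ≥0) (j : ℕ) : ℝ≥0 :=
  (ej j ^ (1 / (2 * P))).toNNReal + (CK * ej j ^ κ).toNNReal +
    (C * (ej j ^ (1 / 4 : ℝ)).toNNReal) ^ (1 / Q) + C * (ej j ^ (1 / 4 : ℝ)).toNNReal

theorem rj_tend {P Q CK κ : ℝ} (hP : 0 < P) (hQ : 0 < Q) (hκ : 0 < κ) (C : ℝ≥0) :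
    Tendsto (rj P Q CK κ C) atTop (𝓝 0) := by
  have e1 : Tendsto (fun j => (ej j ^ (1 / (2 * P))).toNNReal) atTop (𝓝 0) := by
    have h := tendsto_real_toNNReal (ej_rpow (a := 1 / (2 * P)) (by positivity))
    rwa [Real.toNNReal_zero] at h
  have e2 : Tendsto (fun j => (CK * ej j ^ κ).toNNReal) atTop (𝓝 0) := by
    have h := tendsto_real_toNNReal ((ej_rpow hκ).const_mul CK)
    rwa [mul_zero, Real.toNNReal_zero] at h
  have e4 : Tendsto (fun j => C * (ej j ^ (1 / 4 : ℝ)).toNNReal) atTop (𝓝 0) := by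
    have h := tendsto_real_toNNReal (ej_rpow (a := 1 / 4) (by positivity))
    rw [Real.toNNReal_zero] at h
    have h2 := h.const_mul C
    rwa [mul_zero] at h2
  have e3 : Tendsto (fun j => (C * (ej j ^ (1 / 4 : ℝ)).toNNReal) ^ (1 / Q)) atTop (𝓝 0) := by
    have h4 := ((NNReal.continuous_rpow_const (y := 1 / Q) (by positivity)).tendsto 0).comp e4
    rw [NNReal.zero_rpow (by positivity)] at h4
    exact h4
  have h := ((e1.add e2).add e3).add e4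
  rw [add_zero, add_zero, add_zero] at h
  exact h

/-- level sets are null for almost every value -/
theorem level_ae [SigmaFinite μ] {φ : S → ℂ} (hφ : Measurable φ) :
    ∀ᵐ z : ℂ, μ {s | φ s = z} = 0 := by
  rw [ae_iff]
  refine measure_mono_null (fun z hz => ?_)
    ((Measure.countable_meas_level_set_pos (μ := μ) hφ).measure_zero volume)
  exact pos_iff_ne_zero.2 hz

theorem nn_ne {P : ℝ} {ζ : ℂ} (h : ζ ≠ 0) : nn P ζ ≠ 0 := by
  unfold nn
  rw [Complex.ofReal_ne_zero]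
  exact (Real.rpow_pos_of_pos (norm_pos_iff.2 h) _).ne'

/-- the family -/
theorem exFam [SigmaFinite μ] (hMUL : S_MUL) (hCTS : S_CTS) (hSCHA : S_SCHA) (hSCHB : S_SCHB)
    (hRAT : S_RAT) (hKER : S_KER) {p q : ℝ≥0∞} [Fact (1 ≤ p)] [Fact (1 ≤ q)]
    (hpq : p.HolderConjugate q) (hp : p ≠ ∞) (hq : q ≠ ∞) {φ : S → ℂ} (hφ : Measurable φ)
    (hφb : ∃ M : ℝ, ∀ s, ‖φ s‖ ≤ M) {U : Set ℂ} {R γ : ℝ} {D : ℝ≥0} {k : S → S → ℂ}
    (hU : IsOpen U) (hUn : U.Nonempty) (hUR : U ⊆ ball (0:ℂ) R) (hγ : 1 < γ)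
    (hk : Measurable (Function.uncurry k)) (hW : WW μ p q φ γ U k D)
    {N K : Lp ℂ p μ →L[ℂ] Lp ℂ p μ} (hN : IsMul φ N) (hK : IsInt k K) :
    ∃ (H Mn : ℂ → (Lp ℂ p μ →L[ℂ] Lp ℂ p μ)) (Ma Mb Mc : ℕ → ℂ → (Lp ℂ p μ →L[ℂ] Lp ℂ p μ))
      (r : ℕ → ℝ≥0) (C : ℝ≥0), Fam p.toReal R N K H Mn Ma Mb Mc U r C ∧
      (∀ z ∈ U, IsInt (kz φ p.toReal k z) (H z)) ∧ ∀ z ∈ U, ∀ ε : ℝ, 0 < ε → ∃ G : Lp ℂ p μ →L[ℂ] Lp ℂ p μ,
        FiniteDimensional ℂ (LinearMap.range (G : Lp ℂ p μ →ₗ[ℂ] Lp ℂ p μ)) ∧ ‖H z - G‖ < ε := by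
  have hPQ : p.toReal.HolderConjugate q.toReal :=
    ENNReal.HolderConjugate.toReal_of_ne_top (p := p) (q := q) hp hq
  set P : ℝ := p.toReal with hPdef
  set Q : ℝ := q.toReal with hQdef
  have hP1 : 1 < P := hPQ.lt
  have hP0 : 0 < P := by linarith
  have hQ0 : 0 < Q := by linarith [hPQ.symm.lt]
  obtain ⟨hc1, hc2, hc3⟩ := hCTS P hP1
  obtain ⟨Mn, hMnc, hMn⟩ := hMUL S μ p φ hφ hφb (nn P) (hc1 1 one_pos).2.2.2
  have hexa := fun j => hMUL S μ p φ hφ hφb (fun ζ => chi (ej j) ζ * aa P ζ)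
    (hc1 (ej j) (ej_pos j)).2.1
  have hexb := fun j => hMUL S μ p φ hφ hφb (fun ζ => chi (ej j) ζ * bb P ζ)
    (hc1 (ej j) (ej_pos j)).1
  have hexc := fun j => hMUL S μ p φ hφ hφb (chi (ej j)) (hc1 (ej j) (ej_pos j)).2.2.1
  choose Ma hMac hMa using hexa
  choose Mb hMbc hMb using hexb
  choose Mc hMcc hMc using hexc
  obtain ⟨-, H, hH1, hH2, hH3, -, CK, κ, hκ, hH5⟩ :=
    hKER S μ p q hpq hp hq φ hφ hφb U R γ D k hU hUn hUR hγ hk hW
  obtain ⟨C₀, hC₀⟩ := hRAT P Q hPQ R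
  refine ⟨H, Mn, Ma, Mb, Mc, rj P Q CK κ C₀, C₀ ^ (1 / Q) + C₀, ?_, hH1, hH3⟩
  have hr1 : ∀ j, ej j ^ (1 / (2 * P)) ≤ rj P Q CK κ C₀ j := by
    intro j
    have h1 : (ej j ^ (1 / (2 * P))).toNNReal ≤ rj P Q CK κ C₀ j := by
      unfold rj
      exact le_add_right (le_add_right (le_add_right le_rfl))
    exact (Real.le_coe_toNNReal _).trans (by exact_mod_cast h1)
  have hr2 : ∀ j, CK * ej j ^ κ ≤ rj P Q CK κ C₀ j := by
    intro j
    have h1 : (CK * ej j ^ κ).toNNReal ≤ rj P Q CK κ C₀ j := by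
      unfold rj
      exact le_add_right (le_add_right (le_add_left le_rfl))
    exact (Real.le_coe_toNNReal _).trans (by exact_mod_cast h1)
  have hof : ∀ j, (C₀ : ℝ≥0∞) * ENNReal.ofReal (ej j ^ (1 / 4 : ℝ)) =
      ((C₀ * (ej j ^ (1 / 4 : ℝ)).toNNReal : ℝ≥0) : ℝ≥0∞) := by
    intro j
    rw [ENNReal.coe_mul]
    rfl
  have hr3 : ∀ j, ((C₀ : ℝ≥0∞) * ENNReal.ofReal (ej j ^ (1 / 4 : ℝ))) ^ (1 / Q) ≤
      rj P Q CK κ C₀ j := by
    intro j
    rw [hof, ← ENNReal.coe_rpow_of_nonneg _ (by positivity)]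
    unfold rj
    exact ENNReal.coe_le_coe.2 (le_add_right (le_add_left le_rfl))
  have hr4 : ∀ j, (C₀ : ℝ≥0∞) * ENNReal.ofReal (ej j ^ (1 / 4 : ℝ)) ≤ rj P Q CK κ C₀ j := by
    intro j
    rw [hof]
    unfold rj
    exact ENNReal.coe_le_coe.2 (le_add_left le_rfl)
  have hne : ∀ j, (C₀ : ℝ≥0∞) * ENNReal.ofReal (ej j ^ (1 / 4 : ℝ)) ≠ ⊤ := by
    intro j
    rw [hof]
    exact ENNReal.coe_ne_top
  refine
    { P1 := hP1.le
      oU := hU
      UR := hUR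
      cH := hH2
      cn := hMnc
      ca := hMac
      cb := hMbc
      cc := hMcc
      r0 := rj_tend hP0 hQ0 hκ C₀
      n1 := ?_
      n2 := ?_
      n3 := ?_
      n4 := ?_
      n5 := ?_
      n6 := ?_
      n7 := ?_ }
  · intro j z
    refine im_unique (im_mul hN (hMb j z)) (im_congr (im_sub (im_mul (im_const z) (hMb j z))
      (im_mul (hMc j z) (hMn z))) fun s => ?_ ) |>.trans ?_
    · have h := (hc3 (ej j) (ej_pos j) (z - φ s)).1
      rw [← h]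
      ring
    · rw [smul_one_mul]
  · intro j z
    refine im_unique (im_congr (im_mul (hMn z) (hMa j z)) fun s => ?_) (hMc j z)
    exact (hc3 (ej j) (ej_pos j) (z - φ s)).2
  · intro j z
    refine im_norm_le (im_sub (hMn z) (im_mul (hMc j z) (hMn z))) (NNReal.coe_nonneg _)
      fun s => ?_
    exact (hc2 (ej j) (ej_pos j) (z - φ s)).trans (hr1 j)
  · filter_upwards [ae_restrict_mem hU.measurableSet, ae_restrict_of_ae (level_ae (μ := μ) hφ)]
      with z hz hz0 j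
    exact (hH5 z hz hz0 (ej j) (ej_pos j) (ej_le j) K (Mb j z) (Mn z) hK (hMb j z) (hMn z)).trans
      (hr2 j)
  · intro A hA hAR w hw1 hw2
    have hb := fun j => hSCHB S μ p q hpq hp hq φ hφ hφb (fun ζ => chi (ej j) ζ * bb P ζ)
      (hc1 (ej j) (ej_pos j)).1 (Mb j) (hMbc j) (hMb j) R C₀ ENNReal.coe_ne_top
      (fun ζ => (hC₀ (ej j) (ej j) (ej_pos j) le_rfl (ej_le j) ζ).2.2.2.1) A hA hAR w hw1 hw2
    refine ⟨fun j => (hb j).1, fun j => (hb j).2.trans ?_, fun i j hij => ?_, fun j => ?_⟩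
    · gcongr
      rw [← ENNReal.coe_rpow_of_nonneg _ (by positivity)]
      exact ENNReal.coe_le_coe.2 (le_add_right le_rfl)
    · have h := hSCHB S μ p q hpq hp hq φ hφ hφb
        (fun ζ => chi (ej j) ζ * bb P ζ - chi (ej i) ζ * bb P ζ)
        ((hc1 (ej j) (ej_pos j)).1.sub (hc1 (ej i) (ej_pos i)).1)
        (fun z => Mb j z - Mb i z) ((hMbc j).sub (hMbc i))
        (fun z => im_sub (hMb j z) (hMb i z)) R
        (C₀ * ENNReal.ofReal (ej j ^ (1 / 4 : ℝ))) (hne j)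
        (fun ζ => (hC₀ (ej j) (ej i) (ej_pos i) (ej_anti hij) (ej_le j) ζ).1) A hA hAR w hw1 hw2
      refine (le_of_eq ?_).trans (h.2.trans (by gcongr; exact hr3 j))
      rfl
    · have h := hSCHB S μ p q hpq hp hq φ hφ hφb (fun ζ => 1 - chi (ej j) ζ)
        (continuous_const.sub (hc1 (ej j) (ej_pos j)).2.2.1)
        (fun z => (1:ℂ) • (1 : Lp ℂ p μ →L[ℂ] Lp ℂ p μ) - Mc j z)
        (continuous_const.sub (hMcc j))
        (fun z => im_sub (im_const 1) (hMc j z)) R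
        (C₀ * ENNReal.ofReal (ej j ^ (1 / 4 : ℝ))) (hne j)
        (fun ζ => (hC₀ (ej j) (ej j) (ej_pos j) le_rfl (ej_le j) ζ).2.2.1) A hA hAR w hw1 hw2
      have h2 : (fun z => ((1:ℂ) • (1 : Lp ℂ p μ →L[ℂ] Lp ℂ p μ) - Mc j z) (w z)) =
          fun z => w z - Mc j z (w z) := by
        funext z
        rw [one_smul]
        rfl
      rw [h2] at h
      exact h.2.trans (by gcongr; exact hr3 j)
  · intro x
    refine ⟨fun j => ?_, fun i j hij => ?_⟩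
    · have h := hSCHA S μ p hp φ hφ (fun ζ => chi (ej j) ζ * aa P ζ)
        (hc1 (ej j) (ej_pos j)).2.1.measurable (Ma j) (hMa j) R C₀
        (fun ζ => (hC₀ (ej j) (ej j) (ej_pos j) le_rfl (ej_le j) ζ).2.2.2.2) x
      refine h.trans ?_
      gcongr
      exact le_add_left le_rfl
    · have h := hSCHA S μ p hp φ hφ (fun ζ => chi (ej j) ζ * aa P ζ - chi (ej i) ζ * aa P ζ)
        ((hc1 (ej j) (ej_pos j)).2.1.sub (hc1 (ej i) (ej_pos i)).2.1).measurable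
        (fun z => Ma j z - Ma i z) (fun z => im_sub (hMa j z) (hMa i z)) R
        (C₀ * ENNReal.ofReal (ej j ^ (1 / 4 : ℝ)))
        (fun ζ => (hC₀ (ej j) (ej i) (ej_pos i) (ej_anti hij) (ej_le j) ζ).2.1) x
      exact (le_of_eq rfl).trans (h.trans (by gcongr; exact hr4 j))
  · filter_upwards [level_ae (μ := μ) hφ] with z hz f hf
    have h1 := hMn z f
    rw [hf] at h1
    apply Lp.ext
    have h2 : ∀ᵐ s ∂μ, φ s ≠ z := by rw [ae_iff]; simpa using hz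
    filter_upwards [h1, Lp.coeFn_zero ℂ p μ, h2] with s h3 h4 h5
    rw [h4, Pi.zero_apply] at h3
    have h6 : nn P (z - φ s) ≠ 0 := nn_ne (sub_ne_zero.2 (Ne.symm h5))
    rw [h4, Pi.zero_apply]
    exact (mul_eq_zero.1 h3.symm).resolve_left h6

end Pool.Agent.K1H27.PL
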