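import Pool.Agent.K1H27.PL.Case

/-!
# Project PL: vectors with local spectrum in a small disc
-/

set_option autoImplicit false

namespace Pool.Agent.K1H27.PL

open MeasureTheory Set Metric Filter Topology
open scoped ENNReal NNReal

variable {E : Type} [NormedAddCommGroup E] [NormedSpace ℂ E] [CompleteSpace E]
variable {P R : ℝ} {N K : E →L[ℂ] E} {H Mn : ℂ → (E →L[ℂ] E)}
  {Ma Mb Mc : ℕ → ℂ → (E →L[ℂ] E)} {U : Set ℂ} {r : ℕ → ℝ≥0} {C : ℝ≥0}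

theorem seq_of_eigen {T : E →L[ℂ] E} {c : ℂ} {f : E} (hf : f ≠ 0) (hT : T f = c • f) {ρ : ℝ}
    (hρ : 0 < ρ) : Seq T c ρ := by
  refine ⟨fun n => if n = 0 then f else 0, ‖f‖, fun n => ?_, fun n => ?_, ?_⟩
  · show T (if n = 0 then f else 0) - c • (if n = 0 then f else 0) =
      (if n + 1 = 0 then f else 0)
    by_cases hn : n = 0
    · rw [if_pos hn, if_neg (by omega : n + 1 ≠ 0), hT, sub_self]
    · rw [if_neg hn, if_neg (by omega : n + 1 ≠ 0), map_zero, smul_zero, sub_self]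
  · show ‖(if n = 0 then f else 0)‖ ≤ ‖f‖ * ρ ^ n
    by_cases hn : n = 0
    · rw [if_pos hn, hn, pow_zero, mul_one]
    · rw [if_neg hn, norm_zero]
      positivity
  · simpa using hf

/-- a point of the approximate point spectrum which is not an eigenvalue -/
theorem not_surj_of_app {T : E →L[ℂ] E} {c : ℂ} (he : ∀ f : E, T f = c • f → f = 0)
    {x : ℕ → E} (hx : ∀ n, ‖x n‖ = 1) (hTx : Tendsto (fun n => T (x n) - c • x n) atTop (𝓝 0)) :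
    ∃ x, ∀ y, c • y - T y ≠ x := by
  by_contra hcon
  push Not at hcon
  have hval : ∀ y, (c • (1 : E →L[ℂ] E) - T) y = c • y - T y := fun y => rfl
  have hunit : IsUnit (c • (1 : E →L[ℂ] E) - T) := by
    rw [ContinuousLinearMap.isUnit_iff_bijective]
    constructor
    · rw [injective_iff_map_eq_zero]
      intro y hy
      rw [hval, sub_eq_zero] at hy
      exact he y hy.symm
    · intro x
      obtain ⟨y, hy⟩ := hcon x
      exact ⟨y, (hval y).trans hy⟩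
  obtain ⟨v, hv⟩ := hunit
  have h1 : ∀ n, (↑v⁻¹ : E →L[ℂ] E) (T (x n) - c • x n) = -x n := by
    intro n
    have h2 : T (x n) - c • x n = -((v : E →L[ℂ] E) (x n)) := by
      rw [hv, hval, neg_sub]
    rw [h2, map_neg]
    congr 1
    have h3 : (↑v⁻¹ : E →L[ℂ] E) * (v : E →L[ℂ] E) = 1 := v.inv_mul
    exact congrArg (fun L : E →L[ℂ] E => L (x n)) h3
  have h2 : Tendsto (fun n => -x n) atTop (𝓝 0) := by
    have h3 := ((↑v⁻¹ : E →L[ℂ] E).continuous.tendsto 0).comp hTx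
    rw [map_zero] at h3
    exact h3.congr h1
  have h3 := h2.norm
  simp only [norm_neg, hx, norm_zero] at h3
  exact one_ne_zero (tendsto_nhds_unique tendsto_const_nhds h3)

/-- a regular point of the approximate point spectrum -/
theorem Fam.sideA (hROT : S_ROT) (F : Fam P R N K H Mn Ma Mb Mc U r C) {c : ℂ} (hcU : c ∈ U)
    (hcu : IsUnit (1 - H c)) (hx : ∃ x : ℕ → E, (∀ n, ‖x n‖ = 1) ∧
      Tendsto (fun n => (N + K) (x n) - c • x n) atTop (𝓝 0)) {r₀ : ℝ} (hr₀ : 0 < r₀) :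
    ∃ ρ : ℝ, 0 < ρ ∧ ρ ≤ r₀ ∧ Seq (N + K) c ρ := by
  set O : Set ℂ := U ∩ H ⁻¹' {A | IsUnit (1 - A)} with hO
  have hOo : IsOpen O := by
    refine F.cH.isOpen_inter_preimage F.oU ?_
    have h1 : {A : E →L[ℂ] E | IsUnit (1 - A)} = (fun A => 1 - A) ⁻¹' {A | IsUnit A} := rfl
    rw [h1]
    exact Units.isOpen.preimage (continuous_const.sub continuous_id)
  obtain ⟨ρ₁, hρ₁, hsub⟩ := Metric.nhds_basis_closedBall.mem_iff.1
    (hOo.mem_nhds (show c ∈ O from ⟨hcU, hcu⟩))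
  obtain ⟨ρ, hρdef⟩ : ∃ ρ, ρ = min ρ₁ r₀ := ⟨_, rfl⟩
  have hρ : 0 < ρ := by rw [hρdef]; exact lt_min hρ₁ hr₀
  have hρ1 : ρ ≤ ρ₁ := by rw [hρdef]; exact min_le_left _ _
  have hρ2 : ρ ≤ r₀ := by rw [hρdef]; exact min_le_right _ _
  have hsub2 : closedBall c ρ ⊆ O := (closedBall_subset_closedBall hρ1).trans hsub
  refine ⟨ρ, hρ, hρ2, ?_⟩
  by_cases he : ∃ f : E, (N + K) f = c • f ∧ f ≠ 0
  · obtain ⟨f, h1, h2⟩ := he
    exact seq_of_eigen h2 h1 hρ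
  · push Not at he
    obtain ⟨x, hx1, hx2⟩ := hx
    obtain ⟨y, hy⟩ := not_surj_of_app he hx1 hx2
    obtain ⟨X, W, κ, D, h1, h2, h3, h4⟩ := F.caseA hROT hρ (fun z hz => (hsub2 hz).1)
      (fun z hz => (hsub2 hz).2) y
    refine ⟨X, D, h1, h2, fun h0 => ?_⟩
    rw [h0, zero_add] at h3
    apply hy (κ⁻¹ • W)
    rw [map_smul, smul_comm, ← smul_sub, h3, smul_smul, inv_mul_cancel₀ h4, one_smul]

/-- one side -/
theorem Fam.side (hSEL : S_SEL) (hROT : S_ROT) (F : Fam P R N K H Mn Ma Mb Mc U r C)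
    (hap : ∀ z ∈ U, ∀ ε : ℝ, 0 < ε → ∃ G : E →L[ℂ] E,
      FiniteDimensional ℂ (LinearMap.range (G : E →ₗ[ℂ] E)) ∧ ‖H z - G‖ < ε)
    {G : Set ℂ} (hG : ∀ c ∈ G, ∃ x : ℕ → E, (∀ n, ‖x n‖ = 1) ∧
      Tendsto (fun n => (N + K) (x n) - c • x n) atTop (𝓝 0))
    {d : ℂ} {ρ₀ : ℝ} (hρ₀ : 0 < ρ₀) (hd : closedBall d ρ₀ ⊆ U)
    (hpos : 0 < volume (G ∩ ball d ρ₀)) :
    ∃ (c : ℂ) (ρ : ℝ), 0 < ρ ∧ ρ ≤ ρ₀ ∧ closedBall c ρ ⊆ closedBall d ρ₀ ∧ Seq (N + K) c ρ := by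
  set O : Set ℂ := U ∩ H ⁻¹' {A | IsUnit (1 - A)} with hO
  have hOo : IsOpen O := by
    refine F.cH.isOpen_inter_preimage F.oU ?_
    have h1 : {A : E →L[ℂ] E | IsUnit (1 - A)} = (fun A => 1 - A) ⁻¹' {A | IsUnit A} := rfl
    rw [h1]
    exact Units.isOpen.preimage (continuous_const.sub continuous_id)
  set Z : Set ℂ := ball d ρ₀ \ O with hZ
  have hZm : MeasurableSet Z := measurableSet_ball.diff hOo.measurableSet
  have hbU : ball d ρ₀ ⊆ U := ball_subset_closedBall.trans hd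
  have hZU : Z ⊆ U := diff_subset.trans hbU
  have hZn : ∀ z ∈ Z, ¬ IsUnit (1 - H z) := fun z hz h => hz.2 ⟨hZU hz, h⟩
  by_cases hZ0 : volume Z = 0
  · -- a point where `1 - H z` is invertible
    obtain ⟨c, hcG, hcZ⟩ : ∃ c ∈ G ∩ ball d ρ₀, c ∉ Z := by
      by_contra hcon
      push Not at hcon
      exact hpos.ne' (measure_mono_null hcon hZ0)
    have hcO : c ∈ O := by
      by_contra h
      exact hcZ ⟨hcG.2, h⟩
    obtain ⟨ρ₁, hρ₁, hsub⟩ := Metric.nhds_basis_closedBall.mem_iff.1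
      ((isOpen_ball.inter hOo).mem_nhds ⟨hcG.2, hcO⟩)
    obtain ⟨ρ, hρdef⟩ : ∃ ρ, ρ = min ρ₁ ρ₀ := ⟨_, rfl⟩
    have hρ : 0 < ρ := by rw [hρdef]; exact lt_min hρ₁ hρ₀
    have hρ1 : ρ ≤ ρ₁ := by rw [hρdef]; exact min_le_left _ _
    have hρ2 : ρ ≤ ρ₀ := by rw [hρdef]; exact min_le_right _ _
    have hsub2 : closedBall c ρ ⊆ ball d ρ₀ ∩ O := (closedBall_subset_closedBall hρ1).trans hsub
    refine ⟨c, ρ, hρ, hρ2, fun z hz => ball_subset_closedBall (hsub2 hz).1, ?_⟩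
    by_cases he : ∃ f : E, (N + K) f = c • f ∧ f ≠ 0
    · obtain ⟨f, h1, h2⟩ := he
      exact seq_of_eigen h2 h1 hρ
    · push Not at he
      obtain ⟨x, hx1, hx2⟩ := hG c hcG.1
      obtain ⟨y, hy⟩ := not_surj_of_app he hx1 hx2
      obtain ⟨X, W, κ, D, h1, h2, h3, h4⟩ := F.caseA hROT hρ (fun z hz => (hsub2 hz).2.1)
        (fun z hz => (hsub2 hz).2.2) y
      refine ⟨X, D, h1, h2, fun h0 => ?_⟩
      rw [h0, zero_add] at h3
      apply hy (κ⁻¹ • W)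
      rw [map_smul, smul_comm, ← smul_sub, h3, smul_smul, inv_mul_cancel₀ h4, one_smul]
  · obtain ⟨u, hu1, hu2, hu3, hu4, hu5⟩ := hSEL E U H F.oU F.cH hap Z hZm hZU
      (pos_iff_ne_zero.2 hZ0) hZn
    refine ⟨d, ρ₀, hρ₀, le_rfl, Subset.rfl, F.caseB hρ₀ hd hu1 hu2 hu4 ?_⟩
    have h1 : ball d ρ₀ ∩ {z | u z ≠ 0} = {z | u z ≠ 0} := by
      refine inter_eq_right.2 fun z hz => ?_
      by_contra h
      exact hz (hu3 z fun h2 => h h2.1)
    rw [h1]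
    exact hu5

end Pool.Agent.K1H27.PL
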