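import Pool.Agent.K1H27.VM.Stm

/-!
# Project PL (MP_5ac32f_an): `M_φ + K` on `L^p`, the spectrum of `M_φ` of positive area, `K` an integral
operator with a kernel which is regular with respect to `φ`: hyperinvariant subspaces, no exceptional
couplings

Statements of the independent parts.
-/

set_option autoImplicit false

namespace Pool.Agent.K1H27.PL

open MeasureTheory Set Metric Filter Topology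
open scoped ENNReal NNReal
open Pool.Agent.K1H27.VM (HasHyp IsInt IsMul HT)

/-- the cut-off function `|ζ|² / (|ζ|² + ε)` -/
noncomputable def chi (ε : ℝ) (ζ : ℂ) : ℂ := ((‖ζ‖ ^ 2 / (‖ζ‖ ^ 2 + ε) : ℝ) : ℂ)

/-- `|ζ| ^ (1/P)` -/
noncomputable def nn (P : ℝ) (ζ : ℂ) : ℂ := ((‖ζ‖ ^ (1 / P) : ℝ) : ℂ)

/-- `|ζ| ^ (-1/P)`, zero at zero -/
noncomputable def aa (P : ℝ) (ζ : ℂ) : ℂ := ((‖ζ‖ ^ (-(1 / P)) : ℝ) : ℂ)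

/-- `|ζ| ^ (1/P) / ζ`, zero at zero -/
noncomputable def bb (P : ℝ) (ζ : ℂ) : ℂ := ((‖ζ‖ ^ (1 / P) : ℝ) : ℂ) * ζ⁻¹

/-- MUL: multiplication operators by `m (z - φ)` for continuous `m` -/
def S_MUL : Prop := ∀ (S : Type) [MeasurableSpace S] (μ : Measure S) [SigmaFinite μ]
  (p : ℝ≥0∞) [Fact (1 ≤ p)] (φ : S → ℂ), Measurable φ → (∃ M : ℝ, ∀ s, ‖φ s‖ ≤ M) →
  ∀ m : ℂ → ℂ, Continuous m → ∃ M : ℂ → (Lp ℂ p μ →L[ℂ] Lp ℂ p μ), Continuous M ∧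
    ∀ z, IsMul (fun s => m (z - φ s)) (M z)

/-- SCHA: mean values of `‖m (z - φ) x‖^p` over discs -/
def S_SCHA : Prop := ∀ (S : Type) [MeasurableSpace S] (μ : Measure S) [SigmaFinite μ]
  (p : ℝ≥0∞) [Fact (1 ≤ p)], p ≠ ∞ → ∀ φ : S → ℂ, Measurable φ → ∀ m : ℂ → ℂ, Measurable m →
  ∀ M : ℂ → (Lp ℂ p μ →L[ℂ] Lp ℂ p μ), (∀ z, IsMul (fun s => m (z - φ s)) (M z)) →
  ∀ (R : ℝ) (κ : ℝ≥0∞), (∀ ζ : ℂ, ∫⁻ z in ball (0:ℂ) R, ‖m (z - ζ)‖ₑ ^ p.toReal ≤ κ) →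
  ∀ x : Lp ℂ p μ, ∫⁻ z in ball (0:ℂ) R, ‖M z x‖ₑ ^ p.toReal ≤ κ * ‖x‖ₑ ^ p.toReal

/-- SCHB: norms of the integrals of `m (z - φ) w z` -/
def S_SCHB : Prop := ∀ (S : Type) [MeasurableSpace S] (μ : Measure S) [SigmaFinite μ]
  (p q : ℝ≥0∞) [Fact (1 ≤ p)] [Fact (1 ≤ q)], p.HolderConjugate q → p ≠ ∞ → q ≠ ∞ →
  ∀ φ : S → ℂ, Measurable φ → (∃ M : ℝ, ∀ s, ‖φ s‖ ≤ M) → ∀ m : ℂ → ℂ, Continuous m →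
  ∀ M : ℂ → (Lp ℂ p μ →L[ℂ] Lp ℂ p μ), Continuous M →
  (∀ z, IsMul (fun s => m (z - φ s)) (M z)) →
  ∀ (R : ℝ) (κ : ℝ≥0∞), κ ≠ ⊤ →
  (∀ ζ : ℂ, ∫⁻ z in ball (0:ℂ) R, ‖m (z - ζ)‖ₑ ^ q.toReal ≤ κ) →
  ∀ A : Set ℂ, MeasurableSet A → A ⊆ ball (0:ℂ) R → ∀ w : ℂ → Lp ℂ p μ,
  AEStronglyMeasurable w (volume.restrict A) → ∫⁻ z in A, ‖w z‖ₑ ^ p.toReal ≠ ⊤ →
  IntegrableOn (fun z => M z (w z)) A ∧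
  ‖∫ z in A, M z (w z)‖ₑ ≤ κ ^ (1 / q.toReal) * (∫⁻ z in A, ‖w z‖ₑ ^ p.toReal) ^ (1 / p.toReal)

/-- RAT: rates of convergence of the cut-off functions -/
def S_RAT : Prop := ∀ (P Q : ℝ), P.HolderConjugate Q → ∀ R : ℝ, ∃ C : ℝ≥0,
  (∀ ε ε' : ℝ, 0 < ε' → ε' ≤ ε → ε ≤ 1 → ∀ ζ : ℂ,
    ∫⁻ z in ball (0:ℂ) R, ‖chi ε (z - ζ) * bb P (z - ζ) - chi ε' (z - ζ) * bb P (z - ζ)‖ₑ ^ Q ≤
      C * ENNReal.ofReal (ε ^ (1 / 4 : ℝ)) ∧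
    ∫⁻ z in ball (0:ℂ) R, ‖chi ε (z - ζ) * aa P (z - ζ) - chi ε' (z - ζ) * aa P (z - ζ)‖ₑ ^ P ≤
      C * ENNReal.ofReal (ε ^ (1 / 4 : ℝ)) ∧
    ∫⁻ z in ball (0:ℂ) R, ‖1 - chi ε (z - ζ)‖ₑ ^ Q ≤ C * ENNReal.ofReal (ε ^ (1 / 4 : ℝ)) ∧
    ∫⁻ z in ball (0:ℂ) R, ‖chi ε (z - ζ) * bb P (z - ζ)‖ₑ ^ Q ≤ C ∧
    ∫⁻ z in ball (0:ℂ) R, ‖chi ε (z - ζ) * aa P (z - ζ)‖ₑ ^ P ≤ C)

/-- CTS: continuity of the cut-off functions, and uniform convergence of `χ |ζ|^(1/P)` -/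
def S_CTS : Prop := ∀ P : ℝ, 1 < P → (∀ ε : ℝ, 0 < ε →
    Continuous (fun ζ => chi ε ζ * bb P ζ) ∧ Continuous (fun ζ => chi ε ζ * aa P ζ) ∧
    Continuous (chi ε) ∧ Continuous (nn P)) ∧
  (∀ ε : ℝ, 0 < ε → ∀ ζ : ℂ, ‖nn P ζ - chi ε ζ * nn P ζ‖ ≤ ε ^ (1 / (2 * P))) ∧
  (∀ ε : ℝ, 0 < ε → ∀ ζ : ℂ, ζ * (chi ε ζ * bb P ζ) = chi ε ζ * nn P ζ ∧
    nn P ζ * (chi ε ζ * aa P ζ) = chi ε ζ)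

/-- ROT: moments of the annulus -/
def S_ROT : Prop := ∀ (c : ℂ) (ρ : ℝ), 0 < ρ →
  (∀ n : ℕ, 1 ≤ n → ∫ z in {z : ℂ | ρ / 2 < ‖z - c‖ ∧ ‖z - c‖ < ρ},
    (z - c) ^ n * ((‖z - c‖⁻¹ : ℝ) : ℂ) = 0) ∧
  (∫ z in {z : ℂ | ρ / 2 < ‖z - c‖ ∧ ‖z - c‖ < ρ}, ((‖z - c‖⁻¹ : ℝ) : ℂ)) ≠ 0

/-- the essential range of `φ` -/
def essR {S : Type} [MeasurableSpace S] (μ : Measure S) (φ : S → ℂ) : Set ℂ :=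
  {c | ∀ ε : ℝ, 0 < ε → 0 < μ {s | ‖φ s - c‖ < ε}}

/-- SPC: approximate eigenvectors -/
def S_SPC : Prop := ∀ (S : Type) [MeasurableSpace S] (μ : Measure S) [SigmaFinite μ]
  (p q : ℝ≥0∞) [Fact (1 ≤ p)] [Fact (1 ≤ q)], p.HolderConjugate q → p ≠ ∞ → q ≠ ∞ →
  ∀ φ : S → ℂ, Measurable φ → (∃ M : ℝ, ∀ s, ‖φ s‖ ≤ M) → ∀ k : S → S → ℂ,
  Measurable (Function.uncurry k) → HT μ p q k ≠ ∞ →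
  ∀ (N K : Lp ℂ p μ →L[ℂ] Lp ℂ p μ), IsMul φ N → IsInt k K → ∀ c ∈ essR μ φ,
  μ {s | φ s = c} = 0 → ∃ x : ℕ → Lp ℂ p μ, (∀ n, ‖x n‖ = 1) ∧
    Tendsto (fun n => (N + K) (x n) - c • x n) atTop (𝓝 0)

/-- the kernel of `α_z K β_z` -/
noncomputable def kz {S : Type} (φ : S → ℂ) (P : ℝ) (k : S → S → ℂ) (z : ℂ) (s t : S) : ℂ :=
  aa P (z - φ s) * k s t * bb P (z - φ t)

/-- the regularity of the kernel `k` with respect to `φ` on `U` -/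
def WW {S : Type} [MeasurableSpace S] (μ : Measure S) (p q : ℝ≥0∞) (φ : S → ℂ) (γ : ℝ)
    (U : Set ℂ) (k : S → S → ℂ) (D : ℝ≥0) : Prop :=
  ∀ z ∈ U, ∀ z' ∈ U, ∫⁻ s, (∫⁻ t, ‖k s t‖ₑ ^ q.toReal * (‖z' - φ t‖ₑ⁻¹) ^ γ ∂μ) ^
    (p.toReal / q.toReal) * (‖z - φ s‖ₑ⁻¹) ^ γ ∂μ ≤ D

/-- KER: the operators `H z = α_z K β_z` -/
def S_KER : Prop := ∀ (S : Type) [MeasurableSpace S] (μ : Measure S) [SigmaFinite μ]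
  (p q : ℝ≥0∞) [Fact (1 ≤ p)] [Fact (1 ≤ q)], p.HolderConjugate q → p ≠ ∞ → q ≠ ∞ →
  ∀ φ : S → ℂ, Measurable φ → (∃ M : ℝ, ∀ s, ‖φ s‖ ≤ M) → ∀ (U : Set ℂ) (R γ : ℝ) (D : ℝ≥0)
  (k : S → S → ℂ), IsOpen U → U.Nonempty → U ⊆ ball (0:ℂ) R → 1 < γ →
  Measurable (Function.uncurry k) → WW μ p q φ γ U k D →
  HT μ p q k ≠ ∞ ∧ ∃ H : ℂ → (Lp ℂ p μ →L[ℂ] Lp ℂ p μ),
    (∀ z ∈ U, IsInt (kz φ p.toReal k z) (H z)) ∧ ContinuousOn H U ∧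
    (∀ z ∈ U, ∀ ε : ℝ, 0 < ε → ∃ F : Lp ℂ p μ →L[ℂ] Lp ℂ p μ,
      FiniteDimensional ℂ (LinearMap.range (F : Lp ℂ p μ →ₗ[ℂ] Lp ℂ p μ)) ∧ ‖H z - F‖ < ε) ∧
    (∀ A : Set ℂ, IsCompact A → A ⊆ U → ∃ C : ℝ, ∀ z ∈ A, ‖H z‖ ≤ C) ∧
    ∃ C κ : ℝ, 0 < κ ∧ ∀ z ∈ U, μ {s | φ s = z} = 0 → ∀ ε : ℝ, 0 < ε → ε ≤ 1 →
      ∀ K Mb Mn : Lp ℂ p μ →L[ℂ] Lp ℂ p μ, IsInt k K →
      IsMul (fun s => chi ε (z - φ s) * bb p.toReal (z - φ s)) Mb →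
      IsMul (fun s => nn p.toReal (z - φ s)) Mn → ‖K * Mb - Mn * H z‖ ≤ C * ε ^ κ

/-- SELM: measurable selection of vectors in the kernels of singular matrices -/
def S_SELM : Prop := ∀ (n : ℕ) (M : ℂ → Matrix (Fin n) (Fin n) ℂ) (Z : Set ℂ),
  MeasurableSet Z → ContinuousOn M Z → (∀ z ∈ Z, (M z).det = 0) → 0 < volume Z →
  ∃ y : ℂ → (Fin n → ℂ), Measurable y ∧ (∀ z, ‖y z‖ ≤ 1) ∧ (∀ z, z ∉ Z → y z = 0) ∧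
    (∀ z ∈ Z, (M z).mulVec (y z) = 0) ∧ 0 < volume {z | y z ≠ 0}

/-- SEL: measurable selection of eigenvectors of approximable operators -/
def S_SEL : Prop := ∀ (E : Type) [NormedAddCommGroup E] [NormedSpace ℂ E] [CompleteSpace E]
  (U : Set ℂ) (H : ℂ → (E →L[ℂ] E)), IsOpen U → ContinuousOn H U →
  (∀ z ∈ U, ∀ ε : ℝ, 0 < ε → ∃ F : E →L[ℂ] E,
      FiniteDimensional ℂ (LinearMap.range (F : E →ₗ[ℂ] E)) ∧ ‖H z - F‖ < ε) →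
  ∀ Z : Set ℂ, MeasurableSet Z → Z ⊆ U → 0 < volume Z → (∀ z ∈ Z, ¬ IsUnit (1 - H z)) →
  ∃ u : ℂ → E, StronglyMeasurable u ∧ (∀ z, ‖u z‖ ≤ 1) ∧ (∀ z, z ∉ Z → u z = 0) ∧
    (∀ z, H z (u z) = u z) ∧ 0 < volume {z | u z ≠ 0}

/-- CORB: bounded kernels, `φ` with bounded density -/
def S_CORB : Prop := ∀ (S : Type) [MeasurableSpace S] (μ : Measure S) [SigmaFinite μ]
  (p q : ℝ≥0∞), p.HolderConjugate q → p ≠ ∞ → q ≠ ∞ →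
  ∀ φ : S → ℂ, Measurable φ → (∃ M : ℝ, ∀ s, ‖φ s‖ ≤ M) → ∀ C : ℝ≥0,
  (∀ B : Set ℂ, MeasurableSet B → μ (φ ⁻¹' B) ≤ C * volume B) →
  (μ univ ≠ 0 → 0 < volume (essR μ φ)) ∧
  (∀ k : S → S → ℂ, Measurable (Function.uncurry k) → (∃ M : ℝ, ∀ s t, ‖k s t‖ ≤ M) →
    ∃ D : ℝ≥0, WW μ p q φ (3 / 2) univ k D) ∧
  (∀ (k : S → S → ℂ) (h : S → S → ℝ) (r θ c : ℝ), Measurable (Function.uncurry k) →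
    Measurable (Function.uncurry h) → 4 < r → 0 ≤ θ → θ < 1 →
    ∫⁻ s, ∫⁻ t, ‖h s t‖ₑ ^ r ∂μ ∂μ ≠ ⊤ →
    (∀ s t, φ s ≠ φ t → ‖k s t‖ ≤ |h s t| + c * ‖φ s - φ t‖ ^ (-θ)) →
    ∃ γ : ℝ, 1 < γ ∧ ∃ D : ℝ≥0, WW μ 2 2 φ γ univ k D)

end Pool.Agent.K1H27.PL
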